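import Mathlib

/-! Almost disjoint families: on an infinite set `ι` there are more than `#ι` functions `ι → ι`
that pairwise agree on fewer than `#ι` points. -/

set_option autoImplicit false

universe u

namespace Run7.h258

open Cardinal

theorem exists_eventually_different (ι : Type u) [Infinite ι] :
    ∃ 𝓜 : Set (ι → ι), #ι < #𝓜 ∧ ∀ f ∈ 𝓜, ∀ g ∈ 𝓜, f ≠ g → #{x | f x = g x} < #ι := by
  obtain ⟨𝓜, hP, hmax⟩ : ∃ 𝓜 : Set (ι → ι),
      (∀ f ∈ 𝓜, ∀ g ∈ 𝓜, f ≠ g → #{x | f x = g x} < #ι) ∧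
      ∀ 𝓝 : Set (ι → ι), (∀ f ∈ 𝓝, ∀ g ∈ 𝓝, f ≠ g → #{x | f x = g x} < #ι) → 𝓜 ⊆ 𝓝 →
        𝓝 ⊆ 𝓜 := by
    obtain ⟨𝓜, -, h2⟩ := zorn_subset_nonempty
      {𝓜 : Set (ι → ι) | ∀ f ∈ 𝓜, ∀ g ∈ 𝓜, f ≠ g → #{x | f x = g x} < #ι} (by
      intro C hC hch hne
      refine ⟨⋃₀ C, ?_, fun s hs => Set.subset_sUnion_of_mem hs⟩
      rintro f ⟨s, hs, hf⟩ g ⟨t, ht, hg⟩ hfg
      obtain ⟨w, hw, hsw, htw⟩ := hch.directedOn s hs t ht
      exact hC hw f (hsw hf) g (htw hg) hfg) ∅ (by
      intro f hf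
      exact absurd hf (Set.notMem_empty f))
    exact ⟨𝓜, h2.1, fun 𝓝 h3 h4 => h2.2 h3 h4⟩
  refine ⟨𝓜, ?_, hP⟩
  by_contra hle
  rw [not_lt] at hle
  obtain ⟨e⟩ := hle
  obtain ⟨r, wo, hr⟩ := exists_ord_eq ι
  have hsmall : ∀ x, #{y // r y x} < #ι := fun x => by
    have := card_typein_lt x hr
    rwa [Ordinal.card_typein] at this
  have hg : ∀ x, ∃ y, ∀ f : 𝓜, r (e f) x → f.1 x ≠ y := by
    intro x
    by_contra hcon
    push Not at hcon
    choose F hF1 hF2 using hcon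
    have hinj : Function.Injective (fun y : ι => (⟨e (F y), hF1 y⟩ : {y // r y x})) := by
      intro y z hyz
      have h1 : e (F y) = e (F z) := congrArg Subtype.val hyz
      have h2 := e.injective h1
      rw [← hF2 y, ← hF2 z, h2]
    exact (hsmall x).not_ge (mk_le_of_injective hinj)
  choose g hg using hg
  have hag : ∀ f : 𝓜, #{x | f.1 x = g x} < #ι := by
    intro f
    have hsub : {x | f.1 x = g x} ⊆ {x | r x (e f)} ∪ {e f} := by
      intro x hx
      rcases trichotomous_of r x (e f) with h | h | h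
      · exact Or.inl h
      · exact Or.inr h
      · exact absurd hx (hg x f h)
    refine (mk_le_mk_of_subset hsub).trans_lt ((mk_union_le _ _).trans_lt ?_)
    refine add_lt_of_lt (aleph0_le_mk ι) (hsmall (e f)) ?_
    rw [mk_singleton]
    exact one_lt_aleph0.trans_le (aleph0_le_mk ι)
  have hgM : g ∈ 𝓜 := by
    refine hmax (insert g 𝓜) ?_ (Set.subset_insert _ _) (Set.mem_insert _ _)
    intro f hf h hh hne
    rcases Set.mem_insert_iff.1 hf with hf | hf
    · rcases Set.mem_insert_iff.1 hh with hh | hh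
      · exact absurd (hf.trans hh.symm) hne
      · rw [hf]
        have h1 := hag ⟨h, hh⟩
        have h2 : {x | g x = h x} = {x | h x = g x} := by
          ext x
          exact eq_comm
        rw [h2]
        exact h1
    · rcases Set.mem_insert_iff.1 hh with hh | hh
      · rw [hh]
        exact hag ⟨f, hf⟩
      · exact hP f hf h hh hne
  have h1 := hag ⟨g, hgM⟩
  have h2 : {x | g x = g x} = Set.univ := by
    ext x
    simp
  rw [h2, mk_univ] at h1
  exact lt_irrefl _ h1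

end Run7.h258
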