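import Pool.Agent.Run7.h258.Hull

/-! Right Kasch rings and right generalized R-tight rings: basic facts. -/

set_option autoImplicit false

universe u

namespace Run7.h258

open Submodule

section Defs

variable (R : Type u) [Ring R]

/-- `R` is right Kasch. -/
def Kasch : Prop :=
  ∀ (M : Type u) [AddCommGroup M] [Module Rᵐᵒᵖ M], IsSimpleModule Rᵐᵒᵖ M →
    ∃ f : M →ₗ[Rᵐᵒᵖ] R, Function.Injective f

/-- `R` is right generalized `R`-tight. -/
def Tight : Prop :=
  ∀ (E : Type u) [AddCommGroup E] [Module Rᵐᵒᵖ E], Module.Injective Rᵐᵒᵖ E →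
    ∀ ι : R →ₗ[Rᵐᵒᵖ] E, Function.Injective ι →
    (∀ N : Submodule Rᵐᵒᵖ E, N ≠ ⊥ → N ⊓ LinearMap.range ι ≠ ⊥) →
    ∀ x : E, ∃ (I : Type u) (f : ↥(Submodule.span Rᵐᵒᵖ {x}) →ₗ[Rᵐᵒᵖ] (I →₀ R)),
      Function.Injective f

/-- The right socle of `R`. -/
def Soc : Submodule Rᵐᵒᵖ R := sSup {J : Submodule Rᵐᵒᵖ R | IsAtom J}

end Defs

variable {R : Type u} [Ring R]

theorem mul_mem_r (I : Submodule Rᵐᵒᵖ R) {x : R} (hx : x ∈ I) (r : R) : x * r ∈ I := by
  have := I.smul_mem (MulOpposite.op r) hx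
  simpa using this

theorem mem_span_r {x y : R} : y ∈ span Rᵐᵒᵖ ({x} : Set R) ↔ ∃ r : R, y = x * r := by
  rw [Submodule.mem_span_singleton]
  constructor
  · rintro ⟨a, rfl⟩
    exact ⟨a.unop, by simp⟩
  · rintro ⟨r, rfl⟩
    exact ⟨MulOpposite.op r, by simp⟩

theorem map_mul {M : Type u} [AddCommGroup M] [Module Rᵐᵒᵖ M] (f : R →ₗ[Rᵐᵒᵖ] M) (x r : R) :
    f (x * r) = MulOpposite.op r • f x := by
  rw [← map_smul]
  simp

theorem map_mul' (f : R →ₗ[Rᵐᵒᵖ] R) (x r : R) : f (x * r) = f x * r := by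
  rw [map_mul]
  simp

/-- Left multiplication by `a`, as an endomorphism of the right module `R`. -/
def lmul (a : R) : R →ₗ[Rᵐᵒᵖ] R where
  toFun x := a * x
  map_add' := mul_add a
  map_smul' c x := by simp [mul_assoc]

@[simp] theorem lmul_apply (a x : R) : lmul a x = a * x := rfl

/-- The right annihilator of an element. -/
def rann (a : R) : Submodule Rᵐᵒᵖ R := LinearMap.ker (lmul a)

theorem mem_rann {a x : R} : x ∈ rann a ↔ a * x = 0 := Iff.rfl

/-- An element `t` of a simple right ideal generates it. -/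
theorem atom_gen {T : Submodule Rᵐᵒᵖ R} (hT : IsAtom T) {t : R} (ht : t ∈ T) (h0 : t ≠ 0) :
    span Rᵐᵒᵖ {t} = T := by
  have hle : span Rᵐᵒᵖ {t} ≤ T := (Submodule.span_singleton_le_iff_mem _ _).2 ht
  rcases hT.le_iff.1 hle with h | h
  · exact absurd (h ▸ Submodule.mem_span_singleton_self t) (by simpa using h0)
  · exact h

theorem atom_mul {T : Submodule Rᵐᵒᵖ R} (hT : IsAtom T) {t s : R} (ht : t ∈ T) (h0 : t ≠ 0)
    (hs : s ∈ T) : ∃ r : R, s = t * r := by
  rw [← atom_gen hT ht h0] at hs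
  exact mem_span_r.1 hs

theorem atom_le {T L : Submodule Rᵐᵒᵖ R} (hT : IsAtom T) {t : R} (ht : t ∈ T) (h0 : t ≠ 0)
    (hL : t ∈ L) : T ≤ L := by
  rw [← atom_gen hT ht h0]
  exact (Submodule.span_singleton_le_iff_mem _ _).2 hL

theorem isAtom_of_gen {T : Submodule Rᵐᵒᵖ R} (h0 : T ≠ ⊥)
    (h : ∀ x ∈ T, x ≠ 0 → T ≤ span Rᵐᵒᵖ {x}) : IsAtom T := by
  refine ⟨h0, fun N hN => ?_⟩
  by_contra hne
  obtain ⟨x, hx, hx0⟩ := Submodule.exists_mem_ne_zero_of_ne_bot hne
  exact hN.not_ge ((h x (hN.le hx) hx0).trans ((Submodule.span_singleton_le_iff_mem _ _).2 hx))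

theorem exists_gen {T : Submodule Rᵐᵒᵖ R} (hT : IsAtom T) :
    ∃ t : R, t ≠ 0 ∧ span Rᵐᵒᵖ {t} = T := by
  obtain ⟨t, ht, h0⟩ := Submodule.exists_mem_ne_zero_of_ne_bot hT.1
  exact ⟨t, h0, atom_gen hT ht h0⟩

/-- Image of a simple right ideal under a homomorphism that does not vanish on it. -/
theorem isAtom_map {T : Submodule Rᵐᵒᵖ R} (hT : IsAtom T) (f : R →ₗ[Rᵐᵒᵖ] R) {t : R}
    (ht : t ∈ T) (hft : f t ≠ 0) :
    IsAtom (T.map f) ∧ Nonempty (T ≃ₗ[Rᵐᵒᵖ] T.map f) := by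
  have ht0 : t ≠ 0 := fun h => hft (by rw [h, map_zero])
  have hinj : ∀ x ∈ T, f x = 0 → x = 0 := by
    intro x hx hfx
    by_contra hx0
    obtain ⟨r, rfl⟩ := atom_mul hT hx hx0 ht
    exact hft (by rw [map_mul', hfx, zero_mul])
  constructor
  · refine isAtom_of_gen (ne_bot_of_mem (Submodule.mem_map_of_mem ht) hft) ?_
    rintro _ ⟨x, hx, rfl⟩ hx0 _ ⟨y, hy, rfl⟩
    obtain ⟨r, rfl⟩ := atom_mul hT hx (fun h => hx0 (by rw [h, map_zero])) hy
    rw [map_mul']
    exact mul_mem_r _ (Submodule.mem_span_singleton_self _) r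
  · let g : T →ₗ[Rᵐᵒᵖ] R := f.comp T.subtype
    have hg : Function.Injective g := by
      rw [← LinearMap.ker_eq_bot, eq_bot_iff]
      intro x hx
      have : f (x : R) = 0 := hx
      exact (Submodule.mem_bot _).2 (Subtype.ext (hinj _ x.2 this))
    have e := LinearEquiv.ofInjective g hg
    have h2 : LinearMap.range g = T.map f := by
      rw [LinearMap.range_comp, Submodule.range_subtype]
    exact ⟨e.trans (LinearEquiv.ofEq _ _ h2)⟩

/-- The trace of the tightness hypothesis that is used in all proofs: there is an injective hull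
`E` of `R` such that the kernel of every homomorphism `R → E` is the right annihilator of a
finite set. -/
theorem exists_E (hT : Tight R) :
    ∃ (E : Type u) (_ : AddCommGroup E) (_ : Module Rᵐᵒᵖ E) (ι : R →ₗ[Rᵐᵒᵖ] E),
      Module.Injective Rᵐᵒᵖ E ∧ Function.Injective ι ∧
      ∀ h : R →ₗ[Rᵐᵒᵖ] E, ∃ F : Finset R, ∀ x, h x = 0 ↔ ∀ f ∈ F, f * x = 0 := by
  classical
  obtain ⟨E, _, _, ι, hE, hι, hess⟩ := exists_hull (A := Rᵐᵒᵖ) R
  refine ⟨E, inferInstance, inferInstance, ι, hE, hι, fun h => ?_⟩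
  obtain ⟨I, φ, hφ⟩ := hT E hE ι hι hess (h 1)
  let y : ↥(span Rᵐᵒᵖ {h 1}) := ⟨h 1, Submodule.mem_span_singleton_self _⟩
  refine ⟨(φ y).support.image (φ y), fun x => ?_⟩
  have h1 : h x = MulOpposite.op x • h 1 := by
    have := map_mul h 1 x
    rwa [one_mul] at this
  have h2 : h x = 0 ↔ MulOpposite.op x • y = 0 := by
    rw [h1]
    constructor
    · intro h3
      exact Subtype.ext h3
    · intro h3
      exact congrArg Subtype.val h3
  rw [h2]
  have h3 : MulOpposite.op x • y = 0 ↔ MulOpposite.op x • φ y = 0 := by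
    rw [← map_smul]
    constructor
    · intro h3
      rw [h3, map_zero]
    · intro h3
      exact hφ (by rw [h3, map_zero])
  rw [h3]
  constructor
  · intro h4 f hf
    obtain ⟨i, -, rfl⟩ := Finset.mem_image.1 hf
    have := DFunLike.congr_fun h4 i
    simpa using this
  · intro h4
    ext i
    by_cases hi : φ y i = 0
    · simp [hi]
    · have := h4 (φ y i) (Finset.mem_image.2 ⟨i, Finsupp.mem_support_iff.2 hi, rfl⟩)
      simpa using this

/-- Every right ideal is a right annihilator. -/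
theorem F1 (hK : Kasch R) (hT : Tight R) (I : Submodule Rᵐᵒᵖ R) (x : R) (hx : x ∉ I) :
    ∃ a : R, (∀ i ∈ I, a * i = 0) ∧ a * x ≠ 0 := by
  obtain ⟨E, _, _, ι, hE, hι, hEF⟩ := exists_E hT
  -- a right ideal maximal with respect to containing I and not x
  obtain ⟨L, hIL, hL⟩ := zorn_le_nonempty₀ {L : Submodule Rᵐᵒᵖ R | x ∉ L} (by
    intro c hc hch y hy
    refine ⟨sSup c, ?_, fun z hz => le_sSup hz⟩
    intro h1
    rw [Submodule.mem_sSup_of_directed ⟨y, hy⟩ hch.directedOn] at h1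
    obtain ⟨z, hz, hxz⟩ := h1
    exact hc hz hxz) I hx
  have hxL : x ∉ L := hL.1
  have hLmax : ∀ N, L < N → x ∈ N := by
    intro N hN
    by_contra h
    exact hN.not_ge (hL.2 h hN.le)
  let T : Submodule Rᵐᵒᵖ (R ⧸ L) := span Rᵐᵒᵖ {L.mkQ x}
  have hx0 : L.mkQ x ≠ 0 := by simpa using hxL
  have hTat : IsAtom T := by
    refine ⟨ne_bot_of_mem (Submodule.mem_span_singleton_self _) hx0, fun N hN => ?_⟩
    by_contra hne
    have hlt : L < N.comap L.mkQ := by
      refine lt_of_le_of_ne ?_ ?_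
      · intro z hz
        have : L.mkQ z = 0 := by simpa using hz
        show L.mkQ z ∈ N
        rw [this]
        exact N.zero_mem
      · intro he
        obtain ⟨n, hn, hn0⟩ := Submodule.exists_mem_ne_zero_of_ne_bot hne
        obtain ⟨q, rfl⟩ := L.mkQ_surjective n
        have : q ∈ L := he.symm.le hn
        exact hn0 (by simpa using this)
    have h1 : L.mkQ x ∈ N := hLmax _ hlt
    exact hN.not_ge ((Submodule.span_singleton_le_iff_mem _ _).2 h1)
  have hTs : IsSimpleModule Rᵐᵒᵖ T := isSimpleModule_iff_isAtom.2 hTat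
  obtain ⟨f, hf⟩ := hK T hTs
  obtain ⟨h, hh⟩ := hE.out T.subtype T.subtype_injective (ι.comp f)
  obtain ⟨F, hF⟩ := hEF (h.comp L.mkQ)
  have hne : (h.comp L.mkQ) x ≠ 0 := by
    intro h0
    have h1 := hh ⟨L.mkQ x, Submodule.mem_span_singleton_self _⟩
    have h2 : h (L.mkQ x) = 0 := h0
    have h3 : ι (f ⟨L.mkQ x, Submodule.mem_span_singleton_self _⟩) = 0 := by
      rw [← h2]
      exact h1.symm
    have h4 : f ⟨L.mkQ x, Submodule.mem_span_singleton_self _⟩ = 0 :=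
      hι (by rw [h3, map_zero])
    have h5 : (⟨L.mkQ x, Submodule.mem_span_singleton_self _⟩ : T) = 0 :=
      hf (by rw [h4, map_zero])
    exact hx0 (congrArg Subtype.val h5)
  have h6 : ¬ ∀ f ∈ F, f * x = 0 := fun h => hne ((hF x).2 h)
  push Not at h6
  obtain ⟨a, haF, hax⟩ := h6
  refine ⟨a, fun i hi => ?_, hax⟩
  have h7 : (h.comp L.mkQ) i = 0 := by
    have : L.mkQ i = 0 := by simpa using hIL hi
    rw [LinearMap.comp_apply, this, map_zero]
  exact (hF i).1 h7 a haF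

/-- A right ideal that is maximal with zero intersection with some right ideal is the right
annihilator of a finite set. -/
theorem P1 (hT : Tight R) {X K : Submodule Rᵐᵒᵖ R} (hKX : K ⊓ X = ⊥)
    (hmax : ∀ L, K < L → L ⊓ X ≠ ⊥) : ∃ F : Finset R, ∀ x, x ∈ K ↔ ∀ f ∈ F, f * x = 0 := by
  obtain ⟨E, _, _, ι, hE, hι, hEF⟩ := exists_E hT
  let j : X →ₗ[Rᵐᵒᵖ] (R ⧸ K) := K.mkQ.comp X.subtype
  have hj : Function.Injective j := by
    rw [← LinearMap.ker_eq_bot, eq_bot_iff]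
    intro x hx
    have h1 : (x : R) ∈ K := by
      have : K.mkQ (x : R) = 0 := hx
      simpa using this
    exact (Submodule.mem_bot _).2 (Subtype.ext (eq_zero_of_disj hKX h1 x.2))
  obtain ⟨h, hh⟩ := hE.out j hj (ι.comp X.subtype)
  have hker : LinearMap.ker (h.comp K.mkQ) = K := by
    by_contra hne
    have hle : K ≤ LinearMap.ker (h.comp K.mkQ) := by
      intro x hx
      rw [LinearMap.mem_ker, LinearMap.comp_apply]
      have : K.mkQ x = 0 := by simpa using hx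
      rw [this, map_zero]
    refine hmax _ (lt_of_le_of_ne hle (Ne.symm hne)) ?_
    rw [eq_bot_iff]
    intro x hx
    obtain ⟨h1, h2⟩ := Submodule.mem_inf.1 hx
    have h3 : h (j ⟨x, h2⟩) = ι x := hh ⟨x, h2⟩
    have h4 : h (j ⟨x, h2⟩) = 0 := h1
    rw [h4] at h3
    have h5 : x = 0 := hι (by rw [← h3, map_zero])
    rw [h5]
    exact Submodule.zero_mem _
  obtain ⟨F, hF⟩ := hEF (h.comp K.mkQ)
  refine ⟨F, fun x => ?_⟩
  rw [← hF x, ← LinearMap.mem_ker, hker]

/-- Right Kasch: every proper right ideal is annihilated on the left by a generator of a simple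
right ideal. -/
theorem kasch_ann (hK : Kasch R) (I : Submodule Rᵐᵒᵖ R) (hI : I ≠ ⊤) :
    ∃ t : R, IsAtom (span Rᵐᵒᵖ {t}) ∧ ∀ x ∈ I, t * x = 0 := by
  obtain ⟨m, hm, hIm⟩ : ∃ m : Submodule Rᵐᵒᵖ R, IsCoatom m ∧ I ≤ m := by
    have hfin : Module.Finite Rᵐᵒᵖ R := by
      refine ⟨⟨{1}, ?_⟩⟩
      rw [eq_top_iff]
      intro x _
      rw [Finset.coe_singleton]
      exact mem_span_r.2 ⟨x, by rw [one_mul]⟩
    exact (eq_top_or_exists_le_coatom I).resolve_left hI
  have hs : IsSimpleModule Rᵐᵒᵖ (R ⧸ m) := isSimpleModule_iff_isCoatom.2 hm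
  obtain ⟨f, hf⟩ := hK (R ⧸ m) hs
  refine ⟨f (m.mkQ 1), ?_, ?_⟩
  · have hrange : span Rᵐᵒᵖ {f (m.mkQ 1)} = LinearMap.range f := by
      apply le_antisymm
      · exact (Submodule.span_singleton_le_iff_mem _ _).2 ⟨_, rfl⟩
      · rintro _ ⟨q, rfl⟩
        obtain ⟨r, rfl⟩ := m.mkQ_surjective q
        refine mem_span_r.2 ⟨r, ?_⟩
        have := map_mul' (f.comp m.mkQ) 1 r
        rwa [one_mul] at this
    rw [hrange]
    exact isSimpleModule_iff_isAtom.1 (IsSimpleModule.congr (LinearEquiv.ofInjective f hf).symm)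
  · intro x hx
    have h1 := map_mul' (f.comp m.mkQ) 1 x
    rw [one_mul] at h1
    have h2 : (f.comp m.mkQ) x = 0 := by
      have : m.mkQ x = 0 := by simpa using hIm hx
      rw [LinearMap.comp_apply, this, map_zero]
    rw [h2] at h1
    exact h1.symm

end Run7.h258
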