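import Pool.Agent.Run7.h258.Basic

/-! Isomorphism classes of simple right ideals, parts of the socle, singular elements. -/

set_option autoImplicit false

universe u

namespace Run7.h258

open Submodule

/-- Isomorphism of simple right ideals. -/
def atomSetoid (R : Type u) [Ring R] : Setoid {T : Submodule Rᵐᵒᵖ R // IsAtom T} where
  r T T' := Nonempty (T.1 ≃ₗ[Rᵐᵒᵖ] T'.1)
  iseqv := ⟨fun _ => ⟨LinearEquiv.refl _ _⟩, fun ⟨e⟩ => ⟨e.symm⟩, fun ⟨e⟩ ⟨f⟩ => ⟨e.trans f⟩⟩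

/-- Isomorphism classes of simple right ideals. -/
def Cls (R : Type u) [Ring R] : Type u := Quotient (atomSetoid R)

variable {R : Type u} [Ring R]

/-- The class of a simple right ideal. -/
def cls (T : Submodule Rᵐᵒᵖ R) (h : IsAtom T) : Cls R := Quotient.mk (atomSetoid R) ⟨T, h⟩

theorem cls_eq_iff {T T' : Submodule Rᵐᵒᵖ R} (h : IsAtom T) (h' : IsAtom T') :
    cls T h = cls T' h' ↔ Nonempty (T ≃ₗ[Rᵐᵒᵖ] T') :=
  ⟨fun he => Quotient.exact he, fun he => Quotient.sound he⟩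

theorem exists_cls (c : Cls R) : ∃ (T : Submodule Rᵐᵒᵖ R) (h : IsAtom T), cls T h = c := by
  induction c using Quotient.inductionOn with
  | h T => exact ⟨T.1, T.2, rfl⟩

theorem exists_cls' (c : Cls R) : ∃ (t : R) (h : IsAtom (span Rᵐᵒᵖ {t})), cls _ h = c := by
  obtain ⟨T, h, hc⟩ := exists_cls c
  obtain ⟨t, -, rfl⟩ := exists_gen h
  exact ⟨t, h, hc⟩

/-- The part of the socle generated by the simple right ideals whose class is in `𝒜`. -/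
def SA (𝒜 : Set (Cls R)) : Submodule Rᵐᵒᵖ R :=
  sSup {T | ∃ h : IsAtom T, cls T h ∈ 𝒜}

theorem le_SA {𝒜 : Set (Cls R)} {T : Submodule Rᵐᵒᵖ R} (h : IsAtom T) (hc : cls T h ∈ 𝒜) :
    T ≤ SA 𝒜 := le_sSup ⟨h, hc⟩

theorem SA_le {𝒜 : Set (Cls R)} {N : Submodule Rᵐᵒᵖ R}
    (h : ∀ (T : Submodule Rᵐᵒᵖ R) (h : IsAtom T), cls T h ∈ 𝒜 → T ≤ N) : SA 𝒜 ≤ N :=
  sSup_le fun T ⟨hT, hc⟩ => h T hT hc

theorem SA_mono {𝒜 ℬ : Set (Cls R)} (h : 𝒜 ⊆ ℬ) : SA 𝒜 ≤ SA ℬ :=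
  SA_le fun _ hT hc => le_SA hT (h hc)

theorem SA_univ : SA (Set.univ : Set (Cls R)) = Soc R :=
  le_antisymm (SA_le fun _ hT _ => le_sSup hT) (sSup_le fun _ hT => le_SA hT trivial)

theorem SA_le_Soc (𝒜 : Set (Cls R)) : SA 𝒜 ≤ Soc R := SA_univ (R := R) ▸ SA_mono (Set.subset_univ _)

theorem mem_of_le_SA {𝒜 : Set (Cls R)} {T : Submodule Rᵐᵒᵖ R} (h : IsAtom T) (hle : T ≤ SA 𝒜) :
    cls T h ∈ 𝒜 := by
  have h1 : IsSimpleModule Rᵐᵒᵖ T := isSimpleModule_iff_isAtom.2 h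
  have h2 : ∀ m : {T : Submodule Rᵐᵒᵖ R | ∃ h : IsAtom T, cls T h ∈ 𝒜},
      IsSimpleModule Rᵐᵒᵖ m.1 := fun m => isSimpleModule_iff_isAtom.2 m.2.1
  obtain ⟨T', ⟨hT', hc⟩, ⟨e⟩⟩ := Submodule.linearEquiv_of_le_sSup T _ hle
  rw [(cls_eq_iff h hT').2 ⟨e⟩]
  exact hc

/-- The class of a submodule of the socle: a nonzero submodule contains a simple one. -/
theorem exists_atom_le {N : Submodule Rᵐᵒᵖ R} (hN : N ≤ Soc R) (h0 : N ≠ ⊥) :
    ∃ T, IsAtom T ∧ T ≤ N := by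
  have hss : IsSemisimpleModule Rᵐᵒᵖ (Soc R) := by
    have h1 : ∀ T ∈ {J : Submodule Rᵐᵒᵖ R | IsAtom J}, IsSemisimpleModule Rᵐᵒᵖ T := by
      intro T hT
      have : IsSimpleModule Rᵐᵒᵖ T := isSimpleModule_iff_isAtom.2 hT
      infer_instance
    have := isSemisimpleModule_biSup_of_isSemisimpleModule_submodule h1
    rw [Soc, sSup_eq_iSup]
    exact this
  have hN' : IsSemisimpleModule Rᵐᵒᵖ N :=
    IsSemisimpleModule.of_injective _ (Submodule.inclusion_injective hN)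
  have hnt : Nontrivial N := (Submodule.nontrivial_iff_ne_bot).2 h0
  obtain ⟨m, hm⟩ := IsSemisimpleModule.exists_simple_submodule Rᵐᵒᵖ N
  refine ⟨m.map N.subtype, ?_, Submodule.map_subtype_le _ _⟩
  have e := Submodule.equivMapOfInjective N.subtype N.subtype_injective m
  have h3 : IsSimpleModule Rᵐᵒᵖ (m.map N.subtype) :=
    IsSimpleModule.congr (M := (m.map N.subtype : Submodule Rᵐᵒᵖ R)) (N := m) e.symm
  exact isSimpleModule_iff_isAtom.1 h3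

theorem SA_disjoint {𝒜 ℬ : Set (Cls R)} (h : Disjoint 𝒜 ℬ) : SA 𝒜 ⊓ SA ℬ = ⊥ := by
  by_contra hne
  obtain ⟨T, hT, hle⟩ := exists_atom_le (inf_le_left.trans (SA_le_Soc 𝒜)) hne
  exact Set.disjoint_left.1 h (mem_of_le_SA hT (hle.trans inf_le_left))
    (mem_of_le_SA hT (hle.trans inf_le_right))

theorem SA_inf_atom {𝒜 : Set (Cls R)} {T : Submodule Rᵐᵒᵖ R} (hT : IsAtom T)
    (hc : cls T hT ∉ 𝒜) : SA 𝒜 ⊓ T = ⊥ := by
  rcases hT.le_iff.1 (inf_le_right : SA 𝒜 ⊓ T ≤ T) with h | h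
  · exact h
  · exact absurd (mem_of_le_SA hT (inf_eq_right.1 h)) hc

theorem cls_map {T : Submodule Rᵐᵒᵖ R} (hT : IsAtom T) (f : R →ₗ[Rᵐᵒᵖ] R) {t : R}
    (ht : t ∈ T) (hft : f t ≠ 0) (h : IsAtom (T.map f)) : cls (T.map f) h = cls T hT :=
  ((cls_eq_iff hT h).2 (isAtom_map hT f ht hft).2).symm

/-- `SA 𝒜` is stable under left multiplications. -/
theorem lmul_SA (𝒜 : Set (Cls R)) (b : R) {x : R} (hx : x ∈ SA 𝒜) : b * x ∈ SA 𝒜 := by
  have h : SA 𝒜 ≤ (SA 𝒜).comap (lmul b) := by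
    refine SA_le fun T hT hc => ?_
    intro t ht
    show b * t ∈ SA 𝒜
    by_cases h0 : b * t = 0
    · rw [h0]
      exact Submodule.zero_mem _
    · have h1 := isAtom_map hT (lmul b) ht h0
      refine le_SA h1.1 ?_ (Submodule.mem_map_of_mem ht)
      rw [cls_map hT (lmul b) ht h0]
      exact hc
  exact h hx

theorem lmul_Soc (b : R) {x : R} (hx : x ∈ Soc R) : b * x ∈ Soc R := by
  rw [← SA_univ] at hx ⊢
  exact lmul_SA _ b hx

theorem span_gen_eq {t s : R} (hT : IsAtom (span Rᵐᵒᵖ {t})) (hs : s ∈ span Rᵐᵒᵖ {t})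
    (h0 : s ≠ 0) : span Rᵐᵒᵖ {s} = span Rᵐᵒᵖ {t} := atom_gen hT hs h0

theorem gen_ne_zero {t : R} (hT : IsAtom (span Rᵐᵒᵖ {t})) : t ≠ 0 := by
  rintro rfl
  exact hT.1 (by simp)

/-- Inverse image of an essential submodule. -/
theorem Ess.comap {M N : Type u} [AddCommGroup M] [Module Rᵐᵒᵖ M] [AddCommGroup N]
    [Module Rᵐᵒᵖ N] {I : Submodule Rᵐᵒᵖ N} (hI : Ess I) (f : M →ₗ[Rᵐᵒᵖ] N) :
    Ess (I.comap f) := by
  intro L hL hbot
  by_cases h : L.map f = ⊥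
  · obtain ⟨x, hx, hx0⟩ := Submodule.exists_mem_ne_zero_of_ne_bot hL
    have h1 : f x = 0 := by
      have : f x ∈ L.map f := Submodule.mem_map_of_mem hx
      rw [h] at this
      simpa using this
    refine inf_ne_bot hx ?_ hx0 hbot
    show f x ∈ I
    rw [h1]
    exact I.zero_mem
  · obtain ⟨y, hy1, hy2, hy0⟩ := exists_of_inf_ne_bot (hI _ h)
    obtain ⟨x, hx, rfl⟩ := Submodule.mem_map.1 hy1
    exact inf_ne_bot hx hy2 (fun h => hy0 (by rw [h, map_zero])) hbot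

/-- `z` is in the right singular ideal. -/
def Sing (z : R) : Prop := ∃ I : Submodule Rᵐᵒᵖ R, Ess I ∧ ∀ x ∈ I, z * x = 0

theorem ess_top : Ess (⊤ : Submodule Rᵐᵒᵖ R) := fun N hN => by rwa [inf_top_eq]

theorem Sing.zero : Sing (0 : R) := ⟨⊤, ess_top, fun x _ => zero_mul x⟩

theorem Sing.add {z w : R} (hz : Sing z) (hw : Sing w) : Sing (z + w) := by
  obtain ⟨I, hI, h1⟩ := hz
  obtain ⟨L, hL, h2⟩ := hw
  refine ⟨I ⊓ L, hI.inf hL, fun x hx => ?_⟩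
  rw [add_mul, h1 x hx.1, h2 x hx.2, add_zero]

theorem Sing.lmul {z : R} (hz : Sing z) (r : R) : Sing (r * z) := by
  obtain ⟨I, hI, h1⟩ := hz
  exact ⟨I, hI, fun x hx => by rw [mul_assoc, h1 x hx, mul_zero]⟩

theorem Sing.rmul {z : R} (hz : Sing z) (r : R) : Sing (z * r) := by
  obtain ⟨I, hI, h1⟩ := hz
  exact ⟨I.comap (Run7.h258.lmul r), hI.comap _, fun x hx => by
    rw [mul_assoc]
    exact h1 _ hx⟩

theorem Sing.neg {z : R} (hz : Sing z) : Sing (-z) := by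
  have := hz.lmul (-1)
  rwa [neg_one_mul] at this

/-- The right singular ideal, as a right ideal. -/
def Zr (R : Type u) [Ring R] : Submodule Rᵐᵒᵖ R where
  carrier := {z | Sing z}
  add_mem' := Sing.add
  zero_mem' := Sing.zero
  smul_mem' c z hz := by
    have := Sing.rmul hz c.unop
    simpa using this

theorem mem_Zr {z : R} : z ∈ Zr R ↔ Sing z := Iff.rfl

theorem atom_le_ess {T I : Submodule Rᵐᵒᵖ R} (hT : IsAtom T) (hI : Ess I) : T ≤ I := by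
  rcases hT.le_iff.1 (inf_le_left : T ⊓ I ≤ T) with h | h
  · exact absurd h (hI T hT.1)
  · exact inf_eq_left.1 h

/-- Singular elements annihilate the socle. -/
theorem Sing.mul_soc {z : R} (hz : Sing z) {s : R} (hs : s ∈ Soc R) : z * s = 0 := by
  obtain ⟨I, hI, h1⟩ := hz
  have : Soc R ≤ I := sSup_le fun T hT => atom_le_ess hT hI
  exact h1 s (this hs)

end Run7.h258
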