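import Pool.Agent.Run7.h258.Cls

/-! The general principle: finitely many simple modules and, for each of them, an element of
rank one outside the radical modulo the singular ideal. -/

set_option autoImplicit false

universe u

namespace Run7.h258

open Submodule

variable {R : Type u} [Ring R]

/-- `a` is an element of rank one at the class `c`, with `u` a generator of a simple right ideal
of class `c` that is not annihilated. -/
def RankOne (c : Cls R) (a u : R) : Prop :=
  ∃ h : IsAtom (span Rᵐᵒᵖ {u}), cls _ h = c ∧ a * u ≠ 0 ∧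
    (∀ L : Submodule Rᵐᵒᵖ R, rann a < L → L ⊓ span Rᵐᵒᵖ {u} ≠ ⊥) ∧ SA {c}ᶜ ≤ rann a

theorem RankOne.disj {c : Cls R} {a u : R} (h : RankOne c a u) :
    rann a ⊓ span Rᵐᵒᵖ {u} = ⊥ := by
  obtain ⟨hu, -, hau, -, -⟩ := h
  rcases hu.le_iff.1 (inf_le_right : rann a ⊓ span Rᵐᵒᵖ {u} ≤ _) with h | h
  · exact h
  · have h1 : u ∈ rann a := (inf_eq_right.1 h) (Submodule.mem_span_singleton_self u)
    exact absurd h1 hau

theorem RankOne.ess {c : Cls R} {a u : R} (h : RankOne c a u) :
    Ess (rann a ⊔ span Rᵐᵒᵖ {u}) := by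
  have h1 := h.disj
  obtain ⟨hu, -, -, hmax, -⟩ := h
  exact ess_sup_of_max h1 hmax

theorem RankOne.sing {c d : Cls R} {a u b v : R} (h : RankOne c a u) (h' : RankOne d b v)
    (hcd : c ≠ d) (r : R) : Sing (a * r * b) := by
  refine ⟨_, h'.ess, ?_⟩
  obtain ⟨hu, hc, -, -, hSA⟩ := h
  obtain ⟨hv, hd, -, -, -⟩ := h'
  intro x hx
  obtain ⟨k, hk, s, hs, rfl⟩ := Submodule.mem_sup.1 hx
  have h1 : b * k = 0 := hk
  have h2 : s ∈ SA {c}ᶜ := by
    refine le_SA hv ?_ hs
    rw [hd]
    exact fun h => hcd h.symm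
  have h3 : r * (b * s) ∈ SA {c}ᶜ := lmul_SA _ _ (lmul_SA _ _ h2)
  have h4 : a * (r * (b * s)) = 0 := hSA h3
  rw [mul_add, mul_assoc, mul_assoc, h1, mul_zero, mul_zero, zero_add, mul_assoc, mul_assoc, h4]

/-- The image of the socle under an element of rank one is simple. -/
theorem RankOne.map_soc {c : Cls R} {a u : R} (h : RankOne c a u) :
    (Soc R).map (lmul a) ≤ span Rᵐᵒᵖ {a * u} := by
  have hdisj := h.disj
  obtain ⟨hu, -, hau, hmax, -⟩ := h
  rw [Submodule.map_le_iff_le_comap]
  refine sSup_le fun T hT => ?_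
  by_cases hle : T ≤ rann a
  · intro t ht
    have : a * t = 0 := hle ht
    show a * t ∈ span Rᵐᵒᵖ {a * u}
    rw [this]
    exact Submodule.zero_mem _
  · have hlt : rann a < rann a ⊔ T := by
      refine lt_of_le_of_ne le_sup_left fun he => hle ?_
      rw [he]
      exact le_sup_right
    obtain ⟨w, hw1, hw2, hw0⟩ := exists_of_inf_ne_bot (hmax _ hlt)
    have hu' : u ∈ rann a ⊔ T :=
      atom_le hu hw2 hw0 hw1 (Submodule.mem_span_singleton_self u)
    obtain ⟨k, hk, t', ht', hkt⟩ := Submodule.mem_sup.1 hu'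
    have h1 : a * u = a * t' := by
      rw [← hkt, mul_add]
      have : a * k = 0 := hk
      rw [this, zero_add]
    have ht0 : t' ≠ 0 := by
      rintro rfl
      rw [mul_zero] at h1
      exact hau h1
    intro t ht
    obtain ⟨r, rfl⟩ := atom_mul hT ht' ht0 ht
    show a * (t' * r) ∈ span Rᵐᵒᵖ {a * u}
    rw [← mul_assoc, ← h1]
    exact mem_span_r.2 ⟨r, rfl⟩

/-- `N` contains no simple right ideal. -/
def Atomless (N : Submodule Rᵐᵒᵖ R) : Prop := ∀ T : Submodule Rᵐᵒᵖ R, IsAtom T → ¬ T ≤ N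

theorem RankOne.atomless {c : Cls R} {a u : R} (h : RankOne c a u) {N : Submodule Rᵐᵒᵖ R}
    (hN : N ≠ ⊥) (hat : Atomless N) : N ⊓ rann a ≠ ⊥ := by
  intro hbot
  obtain ⟨hu, -, hau, hmax, -⟩ := h
  have hlt : rann a < rann a ⊔ N := by
    refine lt_of_le_of_ne le_sup_left fun he => hN ?_
    have : N ≤ rann a := by
      rw [he]
      exact le_sup_right
    rw [← hbot]
    exact (inf_eq_left.2 this).symm
  obtain ⟨w, hw1, hw2, hw0⟩ := exists_of_inf_ne_bot (hmax _ hlt)
  have hu' : u ∈ rann a ⊔ N :=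
    atom_le hu hw2 hw0 hw1 (Submodule.mem_span_singleton_self u)
  obtain ⟨k, hk, t', ht', hkt⟩ := Submodule.mem_sup.1 hu'
  have h1 : a * u = a * t' := by
    rw [← hkt, mul_add]
    have : a * k = 0 := hk
    rw [this, zero_add]
  have ht0 : t' ≠ 0 := by
    rintro rfl
    rw [mul_zero] at h1
    exact hau h1
  refine hat (span Rᵐᵒᵖ {t'}) (isAtom_of_gen
    (ne_bot_of_mem (Submodule.mem_span_singleton_self _) ht0) ?_)
    ((Submodule.span_singleton_le_iff_mem _ _).2 ht')
  intro x hx hx0
  obtain ⟨r, rfl⟩ := mem_span_r.1 hx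
  -- a * (t' * r) = a * u * r ≠ 0, so u * r ≠ 0
  have h2 : a * (t' * r) ≠ 0 := by
    intro h3
    refine hx0 (eq_zero_of_disj hbot ?_ h3)
    exact mul_mem_r _ ht' r
  have h3 : u * r ≠ 0 := by
    intro h4
    refine h2 ?_
    rw [← mul_assoc, ← h1, mul_assoc, h4, mul_zero]
  obtain ⟨q, hq⟩ := atom_mul hu (mem_span_r.2 ⟨r, rfl⟩) h3 (Submodule.mem_span_singleton_self u)
  -- u = u * r * q
  refine (Submodule.span_singleton_le_iff_mem _ _).2 (mem_span_r.2 ⟨q, ?_⟩)
  have h5 : a * (t' - t' * r * q) = 0 := by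
    have h7 : a * (t' * r * q) = a * (u * r * q) := by
      rw [← mul_assoc, ← mul_assoc, ← h1]
      simp only [mul_assoc]
    rw [mul_sub, ← h1, h7, ← hq, sub_self]
  have h6 : t' - t' * r * q ∈ N := Submodule.sub_mem _ ht' (mul_mem_r _ (mul_mem_r _ ht' r) q)
  exact sub_eq_zero.1 (eq_zero_of_disj hbot h6 h5)

theorem atomless_map {N : Submodule Rᵐᵒᵖ R} (hat : Atomless N) (r : R)
    (h : N ⊓ rann r = ⊥) : Atomless (N.map (lmul r)) := by
  intro T hT hle
  refine hat (N ⊓ T.comap (lmul r)) ?_ inf_le_left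
  refine isAtom_of_gen ?_ ?_
  · obtain ⟨t, ht, ht0⟩ := Submodule.exists_mem_ne_zero_of_ne_bot hT.1
    obtain ⟨n, hn, rfl⟩ := hle ht
    exact inf_ne_bot hn ht (fun h => ht0 (by rw [h, map_zero]))
  · intro x hx hx0 y hy
    have hrx : r * x ≠ 0 := fun h0 => hx0 (eq_zero_of_disj h hx.1 h0)
    obtain ⟨q, hq⟩ := atom_mul hT hx.2 hrx hy.2
    refine mem_span_r.2 ⟨q, ?_⟩
    have h1 : r * (y - x * q) = 0 := by
      have : r * y = r * x * q := hq
      rw [mul_sub, this, mul_assoc, sub_self]
    exact sub_eq_zero.1 (eq_zero_of_disj h (Submodule.sub_mem _ hy.1 (mul_mem_r _ hx.1 q)) h1)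

/-- The simple modules that detect the elements of rank one are pairwise non-isomorphic. -/
theorem injective_t {a u t : Cls R → R} (hau : ∀ c, RankOne c (a c) (u c))
    (hat : ∀ c, IsAtom (span Rᵐᵒᵖ {t c})) (hz : ∀ c z, Sing z → t c * z = 0)
    (hta : ∀ c, t c * a c ≠ 0) : Function.Injective (fun c => cls _ (hat c)) := by
  intro c d hcd
  by_contra hne
  obtain ⟨e⟩ := (cls_eq_iff (hat c) (hat d)).1 hcd
  let s := e.symm ⟨t d, Submodule.mem_span_singleton_self _⟩
  have h1 : (s : R) * a d ≠ 0 := by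
    intro h0
    have h2 : MulOpposite.op (a d) • s = 0 := Subtype.ext (by simpa using h0)
    have h3 : MulOpposite.op (a d) • e s = 0 := by rw [← map_smul, h2, map_zero]
    have h4 : e s = ⟨t d, Submodule.mem_span_singleton_self _⟩ := e.apply_symm_apply _
    rw [h4] at h3
    exact hta d (by simpa using congrArg Subtype.val h3)
  obtain ⟨q, hq⟩ := mem_span_r.1 s.2
  obtain ⟨p, hp⟩ := atom_mul (hat c) (mul_mem_r _ s.2 (a d)) h1
    (Submodule.mem_span_singleton_self (t c))
  have h5 : Sing (a d * p * a c) := (hau d).sing (hau c) (Ne.symm hne) p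
  have h6 := hz c _ (h5.lmul q)
  refine hta c ?_
  rw [hp, hq]
  calc t c * q * a d * p * a c = t c * (q * (a d * p * a c)) := by
        simp only [mul_assoc]
    _ = 0 := h6

/-- The general principle. -/
theorem GP (hK : Kasch R) (hfin : Finite (Cls R))
    (h : ∀ c : Cls R, ∃ a u t : R, RankOne c a u ∧ IsAtom (span Rᵐᵒᵖ {t}) ∧
      (∀ z, Sing z → t * z = 0) ∧ t * a ≠ 0) :
    (Soc R).FG ∧ ∀ I : Submodule Rᵐᵒᵖ R, I ≠ ⊥ → I ⊓ Soc R ≠ ⊥ := by
  choose a u t hau hat hz hta using h
  -- the classes of the `t c` exhaust all classes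
  have hinj : Function.Injective (fun c => cls _ (hat c)) := injective_t hau hat hz hta
  have hsurj : Function.Surjective (fun c => cls _ (hat c)) :=
    Finite.surjective_of_injective hinj
  -- the ideal generated by the `a c`
  let I : Submodule Rᵐᵒᵖ R := span Rᵐᵒᵖ {x | ∃ c r, x = r * a c}
  have hI : I = ⊤ := by
    by_contra hne
    obtain ⟨t', ht', hann⟩ := kasch_ann hK I hne
    obtain ⟨c, hc⟩ := hsurj (cls _ ht')
    obtain ⟨e⟩ := (cls_eq_iff (hat c) ht').1 hc
    let s := e ⟨t c, Submodule.mem_span_singleton_self _⟩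
    obtain ⟨q, hq⟩ := mem_span_r.1 s.2
    have h1 : (s : R) * a c = 0 := by
      rw [hq, mul_assoc]
      exact hann _ (Submodule.subset_span ⟨c, q, rfl⟩)
    have h2 : MulOpposite.op (a c) • s = 0 := Subtype.ext (by simpa using h1)
    have h3 : MulOpposite.op (a c) • (⟨t c, Submodule.mem_span_singleton_self _⟩ :
        span Rᵐᵒᵖ {t c}) = 0 := by
      apply e.injective
      rw [map_smul, map_zero]
      exact h2
    exact hta c (by simpa using congrArg Subtype.val h3)
  have h1I : (1 : R) ∈ I := by rw [hI]; trivial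
  constructor
  · -- finite generation
    have key : ∀ x ∈ I, IsNoetherian Rᵐᵒᵖ ((Soc R).map (lmul x)) := by
      intro x hx
      induction hx using Submodule.span_induction with
      | mem x hx =>
        obtain ⟨c, r, rfl⟩ := hx
        have h1 : IsNoetherian Rᵐᵒᵖ (span Rᵐᵒᵖ {a c * u c}) := by
          have h2 : IsAtom ((span Rᵐᵒᵖ {u c}).map (lmul (a c))) := by
            obtain ⟨hu, -, hne, -, -⟩ := hau c
            exact (isAtom_map hu (lmul (a c)) (Submodule.mem_span_singleton_self _) hne).1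
          rw [Submodule.map_span, Set.image_singleton] at h2
          have h3 : IsSimpleModule Rᵐᵒᵖ (span Rᵐᵒᵖ {a c * u c}) :=
            isSimpleModule_iff_isAtom.2 h2
          infer_instance
        have h4 : IsNoetherian Rᵐᵒᵖ ((Soc R).map (lmul (a c))) :=
          isNoetherian_of_le (hau c).map_soc
        have h5 : (Soc R).map (lmul (r * a c)) = ((Soc R).map (lmul (a c))).map (lmul r) := by
          rw [← Submodule.map_comp]
          congr 1
          refine LinearMap.ext fun x => ?_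
          simp [mul_assoc]
        rw [h5]
        infer_instance
      | zero =>
        have h1 : (Soc R).map (lmul (0 : R)) = ⊥ := by
          rw [eq_bot_iff]
          rintro _ ⟨x, -, rfl⟩
          simp
        rw [h1]
        infer_instance
      | add x y _ _ ihx ihy =>
        have h1 : (Soc R).map (lmul (x + y)) ≤ (Soc R).map (lmul x) ⊔ (Soc R).map (lmul y) := by
          rintro _ ⟨s, hs, rfl⟩
          rw [lmul_apply, add_mul]
          exact Submodule.add_mem_sup (Submodule.mem_map_of_mem hs) (Submodule.mem_map_of_mem hs)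
        have h2 : IsNoetherian Rᵐᵒᵖ
            ((Soc R).map (lmul x) ⊔ (Soc R).map (lmul y) : Submodule Rᵐᵒᵖ R) := inferInstance
        exact isNoetherian_of_le h1
      | smul c x _ ih =>
        have h1 : (Soc R).map (lmul (c • x)) ≤ (Soc R).map (lmul x) := by
          rintro _ ⟨s, hs, rfl⟩
          refine ⟨c.unop * s, lmul_Soc _ hs, ?_⟩
          simp [mul_assoc]
        exact isNoetherian_of_le h1
    have h1 := key 1 h1I
    have h2 : (Soc R).map (lmul (1 : R)) = Soc R := by
      ext x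
      simp
    rw [h2] at h1
    exact (isNoetherian_submodule.1 h1) _ le_rfl
  · -- essentiality
    intro K hKne hbot
    have hatl : Atomless K := by
      intro T hT hle
      refine hT.1 ?_
      rw [eq_bot_iff, ← hbot]
      exact le_inf hle (le_sSup hT)
    have key : ∀ x ∈ I, ∀ N : Submodule Rᵐᵒᵖ R, N ≠ ⊥ → Atomless N →
        ∃ L : Submodule Rᵐᵒᵖ R, L ≤ N ∧ L ≠ ⊥ ∧ ∀ k ∈ L, x * k = 0 := by
      intro x hx
      induction hx using Submodule.span_induction with
      | mem x hx =>
        obtain ⟨c, r, rfl⟩ := hx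
        intro N hN hat
        refine ⟨N ⊓ rann (a c), inf_le_left, (hau c).atomless hN hat, fun k hk => ?_⟩
        have h1 : a c * k = 0 := hk.2
        rw [mul_assoc, h1, mul_zero]
      | zero => exact fun N hN _ => ⟨N, le_rfl, hN, fun k _ => zero_mul k⟩
      | add x y _ _ ihx ihy =>
        intro N hN hat
        obtain ⟨L, hL1, hL2, hL3⟩ := ihx N hN hat
        obtain ⟨L', hL1', hL2', hL3'⟩ := ihy L hL2 (fun T hT hle => hat T hT (hle.trans hL1))
        refine ⟨L', hL1'.trans hL1, hL2', fun k hk => ?_⟩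
        rw [add_mul, hL3 k (hL1' hk), hL3' k hk, add_zero]
      | smul c x _ ih =>
        intro N hN hat
        have hcx : ∀ k, (c • x) * k = x * (c.unop * k) := fun k => by simp [mul_assoc]
        by_cases h0 : N ⊓ rann c.unop = ⊥
        · have h1 : N.map (lmul c.unop) ≠ ⊥ := by
            obtain ⟨n, hn, hn0⟩ := Submodule.exists_mem_ne_zero_of_ne_bot hN
            refine ne_bot_of_mem (Submodule.mem_map_of_mem hn) ?_
            intro h2
            exact hn0 (eq_zero_of_disj h0 hn h2)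
          obtain ⟨L, hL1, hL2, hL3⟩ := ih _ h1 (atomless_map hat _ h0)
          refine ⟨N ⊓ L.comap (lmul c.unop), inf_le_left, ?_, fun k hk => ?_⟩
          · obtain ⟨l, hl, hl0⟩ := Submodule.exists_mem_ne_zero_of_ne_bot hL2
            obtain ⟨n, hn, rfl⟩ := hL1 hl
            exact inf_ne_bot hn hl (fun h => hl0 (by rw [h, map_zero]))
          · rw [hcx]
            exact hL3 _ hk.2
        · refine ⟨N ⊓ rann c.unop, inf_le_left, h0, fun k hk => ?_⟩
          have h1 : c.unop * k = 0 := hk.2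
          rw [hcx, h1, mul_zero]
    obtain ⟨L, -, hL2, hL3⟩ := key 1 h1I K hKne hatl
    obtain ⟨l, hl, hl0⟩ := Submodule.exists_mem_ne_zero_of_ne_bot hL2
    exact hl0 (by simpa using hL3 l hl)

end Run7.h258
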