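import Mathlib

/-! Injective hulls and maximal disjoint submodules. -/

set_option autoImplicit false

universe u

namespace Run7.h258

open Submodule

section General

variable {A : Type u} [Ring A] {M : Type u} [AddCommGroup M] [Module A M]

/-- `I` is an essential submodule. -/
def Ess (I : Submodule A M) : Prop := ∀ N : Submodule A M, N ≠ ⊥ → N ⊓ I ≠ ⊥

theorem ne_bot_of_mem {N : Submodule A M} {x : M} (hx : x ∈ N) (h0 : x ≠ 0) : N ≠ ⊥ := by
  intro h
  rw [h] at hx
  exact h0 ((Submodule.mem_bot A).1 hx)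

theorem inf_ne_bot {N L : Submodule A M} {x : M} (hx : x ∈ N) (hy : x ∈ L) (h0 : x ≠ 0) :
    N ⊓ L ≠ ⊥ := ne_bot_of_mem (Submodule.mem_inf.2 ⟨hx, hy⟩) h0

theorem exists_of_inf_ne_bot {N L : Submodule A M} (h : N ⊓ L ≠ ⊥) :
    ∃ x, x ∈ N ∧ x ∈ L ∧ x ≠ 0 := by
  obtain ⟨x, hx, h0⟩ := Submodule.exists_mem_ne_zero_of_ne_bot h
  exact ⟨x, (Submodule.mem_inf.1 hx).1, (Submodule.mem_inf.1 hx).2, h0⟩

theorem eq_zero_of_disj {N L : Submodule A M} (h : N ⊓ L = ⊥) {x : M} (hx : x ∈ N)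
    (hy : x ∈ L) : x = 0 := by
  by_contra h0
  exact inf_ne_bot hx hy h0 h

theorem exists_max_disjoint (X K0 : Submodule A M) (h : K0 ⊓ X = ⊥) :
    ∃ K, K0 ≤ K ∧ K ⊓ X = ⊥ ∧ ∀ L, K < L → L ⊓ X ≠ ⊥ := by
  obtain ⟨K, hK, hmax⟩ := zorn_le_nonempty₀ {K : Submodule A M | K ⊓ X = ⊥} (by
    intro c hc hch y hy
    refine ⟨sSup c, ?_, fun z hz => le_sSup hz⟩
    show sSup c ⊓ X = ⊥
    rw [eq_bot_iff]
    intro x hx
    obtain ⟨h1, h2⟩ := Submodule.mem_inf.1 hx
    rw [Submodule.mem_sSup_of_directed ⟨y, hy⟩ hch.directedOn] at h1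
    obtain ⟨z, hz, hxz⟩ := h1
    have : z ⊓ X = ⊥ := hc hz
    rw [← this]
    exact Submodule.mem_inf.2 ⟨hxz, h2⟩) K0 h
  refine ⟨K, hK, hmax.1, fun L hL hbot => ?_⟩
  exact hL.not_ge (hmax.2 hbot hL.le)

/-- A maximal disjoint submodule, together with the submodule, is essential. -/
theorem ess_sup_of_max {X K : Submodule A M} (h : K ⊓ X = ⊥)
    (hmax : ∀ L, K < L → L ⊓ X ≠ ⊥) : Ess (K ⊔ X) := by
  intro N hN hbot
  have hlt : K < K ⊔ N := by
    refine lt_of_le_of_ne le_sup_left fun he => hN ?_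
    have hNK : N ≤ K := by rw [he]; exact le_sup_right
    rw [eq_bot_iff, ← hbot]
    exact le_inf le_rfl (hNK.trans le_sup_left)
  refine hmax _ hlt ?_
  rw [eq_bot_iff]
  intro x hx
  obtain ⟨h1, h2⟩ := Submodule.mem_inf.1 hx
  obtain ⟨k, hk, n, hn, rfl⟩ := Submodule.mem_sup.1 h1
  have hn' : n ∈ K ⊔ X := by
    have : n = (k + n) - k := by abel
    rw [this]
    exact Submodule.sub_mem _ (Submodule.mem_sup_right h2) (Submodule.mem_sup_left hk)
  have hn0 : n = 0 := eq_zero_of_disj hbot hn hn'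
  subst hn0
  rw [add_zero] at h2 ⊢
  rw [eq_zero_of_disj h hk h2]
  exact Submodule.zero_mem _

theorem Ess.mono {I L : Submodule A M} (h : Ess I) (hIL : I ≤ L) : Ess L := by
  intro N hN hbot
  refine h N hN ?_
  rw [eq_bot_iff, ← hbot]
  exact inf_le_inf_left _ hIL

theorem Ess.inf {I L : Submodule A M} (h : Ess I) (h' : Ess L) : Ess (I ⊓ L) := by
  intro N hN
  have h1 := h' _ (h N hN)
  rwa [inf_assoc] at h1

theorem exists_embed_injective (M : Type u) [AddCommGroup M] [Module A M] :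
    ∃ (Q : Type u) (_ : AddCommGroup Q) (_ : Module A Q) (f : M →ₗ[A] Q),
      Module.Injective A Q ∧ Function.Injective f := by
  have : CategoryTheory.EnoughInjectives (ModuleCat.{u} A) := inferInstance
  let Q := CategoryTheory.Injective.under (ModuleCat.of A M)
  let f := CategoryTheory.Injective.ι (ModuleCat.of A M)
  refine ⟨Q, inferInstance, inferInstance, f.hom, ?_, ?_⟩
  · have : CategoryTheory.Injective (ModuleCat.of A Q) := by
      show CategoryTheory.Injective Q
      infer_instance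
    exact Module.injective_module_of_injective_object A Q
  · exact (ModuleCat.mono_iff_injective f).1 inferInstance

/-- Existence of injective hulls. -/
theorem exists_hull (M : Type u) [AddCommGroup M] [Module A M] :
    ∃ (E : Type u) (_ : AddCommGroup E) (_ : Module A E) (f : M →ₗ[A] E),
      Module.Injective A E ∧ Function.Injective f ∧ Ess (LinearMap.range f) := by
  obtain ⟨Q, _, _, f, hQ, hf⟩ := exists_embed_injective (A := A) M
  let E0 : Submodule A Q := LinearMap.range f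
  obtain ⟨E, hE0E, hE⟩ := zorn_le_nonempty₀
    {E : Submodule A Q | E0 ≤ E ∧ ∀ N, N ≤ E → N ≠ ⊥ → N ⊓ E0 ≠ ⊥} (by
    intro c hc hch y hy
    refine ⟨sSup c, ⟨(hc hy).1.trans (le_sSup hy), ?_⟩, fun z hz => le_sSup hz⟩
    intro N hN hN0 hbot
    obtain ⟨x, hx, hx0⟩ := Submodule.exists_mem_ne_zero_of_ne_bot hN0
    have h1 := hN hx
    rw [Submodule.mem_sSup_of_directed ⟨y, hy⟩ hch.directedOn] at h1
    obtain ⟨z, hz, hxz⟩ := h1
    refine (hc hz).2 (span A {x}) ((Submodule.span_singleton_le_iff_mem _ _).2 hxz)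
      (ne_bot_of_mem (Submodule.mem_span_singleton_self x) hx0) ?_
    rw [eq_bot_iff, ← hbot]
    exact inf_le_inf_right _ ((Submodule.span_singleton_le_iff_mem _ _).2 hx)) E0
    ⟨le_rfl, fun N hN hN0 => by rwa [inf_eq_left.2 hN]⟩
  have hEmem := hE.1
  have hEmax := hE.2
  obtain ⟨K, -, hKE, hKmax⟩ := exists_max_disjoint E ⊥ (by simp)
  -- extend the inclusion of E along E → Q/K
  let j : E →ₗ[A] (Q ⧸ K) := K.mkQ.comp E.subtype
  have hj : Function.Injective j := by
    rw [← LinearMap.ker_eq_bot, eq_bot_iff]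
    intro x hx
    have h1 : (x : Q) ∈ K := by
      have : K.mkQ (x : Q) = 0 := hx
      simpa using this
    have h2 := eq_zero_of_disj hKE h1 x.2
    exact (Submodule.mem_bot A).2 (Subtype.ext h2)
  obtain ⟨g, hg⟩ := hQ.out j hj E.subtype
  have hginj : LinearMap.ker (g.comp K.mkQ) = K := by
    by_contra hne
    have hle : K ≤ LinearMap.ker (g.comp K.mkQ) := by
      intro x hx
      rw [LinearMap.mem_ker, LinearMap.comp_apply]
      have : K.mkQ x = 0 := by simpa using hx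
      rw [this, map_zero]
    refine hKmax _ (lt_of_le_of_ne hle (Ne.symm hne)) ?_
    rw [eq_bot_iff]
    intro x hx
    obtain ⟨h1, h2⟩ := Submodule.mem_inf.1 hx
    have h3 := hg ⟨x, h2⟩
    have h4 : g (j ⟨x, h2⟩) = 0 := h1
    rw [h4] at h3
    have : x = 0 := h3.symm
    rw [this]
    exact Submodule.zero_mem _
  have hgE : ∀ q, g (K.mkQ q) ∈ E := by
    have hmem : E ≤ LinearMap.range (g.comp K.mkQ) := fun e he => ⟨e, hg ⟨e, he⟩⟩
    have hE' : LinearMap.range (g.comp K.mkQ) ≤ E := by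
      refine hEmax ⟨hEmem.1.trans hmem, ?_⟩ hmem
      intro N hN hN0
      have hlt : K < N.comap (g.comp K.mkQ) := by
        refine lt_of_le_of_ne ?_ ?_
        · refine hginj.symm.le.trans ?_
          intro x hx
          rw [Submodule.mem_comap, LinearMap.mem_ker.1 hx]
          exact Submodule.zero_mem _
        · intro he
          obtain ⟨n, hn, hn0⟩ := Submodule.exists_mem_ne_zero_of_ne_bot hN0
          obtain ⟨q, rfl⟩ := hN hn
          have hq : q ∈ N.comap (g.comp K.mkQ) := hn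
          have hq2 : q ∈ K := he.symm.le hq
          exact hn0 (hginj.symm.le hq2)
      obtain ⟨e, he1, he2, he0⟩ := exists_of_inf_ne_bot (hKmax _ hlt)
      have h5 : g (K.mkQ e) = e := hg ⟨e, he2⟩
      have h6 : e ∈ N := by
        have : (g.comp K.mkQ) e ∈ N := he1
        rwa [LinearMap.comp_apply, h5] at this
      have h7 := hEmem.2 (N ⊓ E) inf_le_right (inf_ne_bot h6 he2 he0)
      intro hbot
      refine h7 ?_
      rw [eq_bot_iff, ← hbot]
      exact inf_le_inf_right _ inf_le_left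
    intro q
    exact hE' ⟨q, rfl⟩
  let p : Q →ₗ[A] E := LinearMap.codRestrict E (g.comp K.mkQ) hgE
  have hp : ∀ e : E, p e = e := fun e => Subtype.ext (hg e)
  have hfE : ∀ m, f m ∈ E := fun m => hEmem.1 ⟨m, rfl⟩
  refine ⟨E, inferInstance, inferInstance, LinearMap.codRestrict E f hfE, ?_, ?_, ?_⟩
  · refine ⟨?_⟩
    intro X Y _ _ _ _ φ hφ ψ
    obtain ⟨h, hh⟩ := hQ.out φ hφ (E.subtype.comp ψ)
    refine ⟨p.comp h, fun x => ?_⟩
    rw [LinearMap.comp_apply, hh x]
    exact hp (ψ x)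
  · intro a b hab
    exact hf (congrArg Subtype.val hab)
  · intro N hN
    obtain ⟨n, hn, hn0⟩ := Submodule.exists_mem_ne_zero_of_ne_bot hN
    have h1 : N.map E.subtype ≠ ⊥ :=
      ne_bot_of_mem (Submodule.mem_map_of_mem hn) (fun h => hn0 (Subtype.ext h))
    obtain ⟨y, hy1, hy2, hy0⟩ := exists_of_inf_ne_bot
      (hEmem.2 _ (Submodule.map_subtype_le E N) h1)
    obtain ⟨y', hy', rfl⟩ := Submodule.mem_map.1 hy1
    obtain ⟨m, hm⟩ := hy2
    refine inf_ne_bot hy' ⟨m, Subtype.ext hm⟩ ?_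
    intro h
    exact hy0 (by rw [h]; rfl)

end General

end Run7.h258
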