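import Pool.Agent.Run7.h258.GP

/-! Right Kasch right generalized R-tight rings in which every finitely generated left ideal `L`
with zero right annihilator satisfies `L + l(S) = R`, where `S` is the right socle. -/

set_option autoImplicit false

universe u

namespace Run7.h258

open Submodule

variable {R : Type u} [Ring R]

/-- Every finitely generated left ideal with zero right annihilator generates `R` together with
the left annihilator of the right socle. -/
def LeftCond (R : Type u) [Ring R] : Prop :=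
  ∀ F : Finset R, (∀ x : R, (∀ f ∈ F, f * x = 0) → x = 0) →
    ∃ z : R, (∀ s ∈ Soc R, z * s = 0) ∧ 1 - z ∈ Ideal.span (F : Set R)

theorem exists_pair {X₀ K₀ : Submodule Rᵐᵒᵖ R} (h : K₀ ⊓ X₀ = ⊥) :
    ∃ X K : Submodule Rᵐᵒᵖ R, X₀ ≤ X ∧ K₀ ≤ K ∧ K ⊓ X = ⊥ ∧ X ⊓ K = ⊥ ∧
      (∀ L, K < L → L ⊓ X₀ ≠ ⊥) ∧ (∀ L, X < L → L ⊓ K ≠ ⊥) := by
  obtain ⟨K, hK0, hKX, hKmax⟩ := exists_max_disjoint X₀ K₀ h
  obtain ⟨X, hX0, hXK, hXmax⟩ := exists_max_disjoint K X₀ (by rwa [inf_comm])
  exact ⟨X, K, hX0, hK0, by rwa [inf_comm], hXK, hKmax, hXmax⟩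

theorem span_kills {F : Finset R} {K : Submodule Rᵐᵒᵖ R}
    (hF : ∀ x, x ∈ K ↔ ∀ f ∈ F, f * x = 0) {y : R} (hy : y ∈ Ideal.span (F : Set R)) {k : R}
    (hk : k ∈ K) : y * k = 0 := by
  induction hy using Submodule.span_induction with
  | mem x hx => exact (hF k).1 hk x (Finset.mem_coe.1 hx)
  | zero => exact zero_mul k
  | add x y _ _ hx hy => rw [add_mul, hx, hy, add_zero]
  | smul r x _ hx => rw [smul_eq_mul, mul_assoc, hx, mul_zero]

/-- The splitting of `1` attached to a complement pair. -/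
theorem split_one (hT : Tight R) (hL : LeftCond R) {X₀ K₀ : Submodule Rᵐᵒᵖ R}
    (h : K₀ ⊓ X₀ = ⊥) :
    ∃ (K : Submodule Rᵐᵒᵖ R) (x y z : R), K₀ ≤ K ∧ K ⊓ X₀ = ⊥ ∧
      (∀ L, K < L → L ⊓ X₀ ≠ ⊥) ∧ 1 = x + y + z ∧ (∀ s ∈ Soc R, z * s = 0) ∧
      (∀ k ∈ K, x * k = 0) ∧
      (∀ s ∈ X₀, y * s = 0) := by
  classical
  obtain ⟨X, K, hX0, hK0, hKX, hXK, hKmax, hXmax⟩ := exists_pair h
  have hKX0 : K ⊓ X₀ = ⊥ := by
    rw [eq_bot_iff, ← hKX]
    exact inf_le_inf_left _ hX0
  obtain ⟨F1, hF1⟩ := P1 hT hKX0 hKmax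
  obtain ⟨F2, hF2⟩ := P1 hT hXK hXmax
  obtain ⟨z, hz, hmem⟩ := hL (F1 ∪ F2) (by
    intro x hx
    refine eq_zero_of_disj hKX ((hF1 x).2 fun f hf => hx f (Finset.mem_union_left _ hf))
      ((hF2 x).2 fun f hf => hx f (Finset.mem_union_right _ hf)))
  rw [Finset.coe_union, Ideal.span_union] at hmem
  obtain ⟨x, hx, y, hy, hxy⟩ := Submodule.mem_sup.1 hmem
  refine ⟨K, x, y, z, hK0, hKX0, hKmax, ?_, hz, fun k hk => span_kills hF1 hx hk,
    fun s hs => span_kills hF2 hy (hX0 hs)⟩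
  rw [hxy, sub_add_cancel]

/-- Separation of the homogeneous components. -/
theorem exists_sep (hT : Tight R) (hL : LeftCond R) (𝒜 : Set (Cls R)) :
    ∃ x : R, (∀ s ∈ SA 𝒜, x * s = s) ∧ (∀ s ∈ SA 𝒜ᶜ, x * s = 0) := by
  obtain ⟨K, x, y, z, hK0, -, -, h1, hz, hx, hy⟩ := split_one hT hL (X₀ := SA 𝒜) (K₀ := SA 𝒜ᶜ)
    (SA_disjoint disjoint_compl_left)
  refine ⟨x, fun s hs => ?_, fun s hs => hx s (hK0 hs)⟩
  have h2 : s = (x + y + z) * s := by rw [← h1, one_mul]
  rw [add_mul, add_mul, hy s hs, hz s (SA_le_Soc _ hs), add_zero, add_zero] at h2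
  exact h2.symm

/-- Separation of components implies that there are only finitely many of them. -/
theorem finite_cls_of_sep (hK : Kasch R)
    (hsep : ∀ 𝒜 : Set (Cls R), ∃ x : R, (∀ s ∈ SA 𝒜, x * s = s) ∧ (∀ s ∈ SA 𝒜ᶜ, x * s = 0)) :
    Finite (Cls R) := by
  classical
  by_contra hinf
  rw [not_finite_iff_infinite] at hinf
  obtain ⟨e⟩ : Nonempty (Cls R ≃ Finset (Cls R)) :=
    Cardinal.eq.1 (Cardinal.mk_finset_of_infinite (Cls R)).symm
  choose x hx1 hx0 using hsep
  choose t ht hct using fun c : Cls R => exists_cls' c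
  let B : Cls R → Set (Cls R) := fun j => {i | j ∈ e i}
  let z : Cls R → R := fun j => if t j * x (B j) = 0 then 1 - x (B j) else x (B j)
  have hz : ∀ j, t j * z j ≠ 0 := by
    intro j
    by_cases h : t j * x (B j) = 0
    · simp only [z, h, if_true, mul_sub, mul_one, sub_zero]
      exact gen_ne_zero (ht j)
    · have h' : z j = x (B j) := if_neg h
      rw [h']
      exact h
  let I : Submodule Rᵐᵒᵖ R := span Rᵐᵒᵖ {y | ∃ j r, y = r * z j}
  have hI : I ≠ ⊤ := by
    intro hI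
    have h1 : (1 : R) ∈ I := by rw [hI]; trivial
    have key : ∀ y ∈ I, ∃ F : Finset (Cls R), ∀ i : Cls R,
        (∀ j ∈ F, ∀ s ∈ SA {i}, z j * s = 0) → ∀ s ∈ SA {i}, y * s = 0 := by
      intro y hy
      induction hy using Submodule.span_induction with
      | mem y hy =>
        obtain ⟨j, r, rfl⟩ := hy
        refine ⟨{j}, fun i hi s hs => ?_⟩
        rw [mul_assoc, hi j (Finset.mem_singleton_self j) s hs, mul_zero]
      | zero => exact ⟨∅, fun i _ s _ => zero_mul s⟩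
      | add y y' _ _ ih ih' =>
        obtain ⟨F, hF⟩ := ih
        obtain ⟨F', hF'⟩ := ih'
        refine ⟨F ∪ F', fun i hi s hs => ?_⟩
        rw [add_mul, hF i (fun j hj => hi j (Finset.mem_union_left _ hj)) s hs,
          hF' i (fun j hj => hi j (Finset.mem_union_right _ hj)) s hs, add_zero]
      | smul c y _ ih =>
        obtain ⟨F, hF⟩ := ih
        refine ⟨F, fun i hi s hs => ?_⟩
        have h2 : (c • y) * s = y * (c.unop * s) := by simp [mul_assoc]
        rw [h2]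
        exact hF i hi _ (lmul_SA _ _ hs)
    obtain ⟨F, hF⟩ := key 1 h1
    let i : Cls R := e.symm (F.filter fun j => t j * x (B j) = 0)
    have h2 := hF i (by
      intro j hj s hs
      by_cases h : t j * x (B j) = 0
      · have hi : i ∈ B j := by
          show j ∈ e i
          rw [e.apply_symm_apply]
          exact Finset.mem_filter.2 ⟨hj, h⟩
        have h3 := hx1 (B j) s (SA_mono (Set.singleton_subset_iff.2 hi) hs)
        simp only [z, h, if_true, sub_mul, one_mul, h3, sub_self]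
      · have hi : i ∈ (B j)ᶜ := by
          show ¬ j ∈ e i
          rw [e.apply_symm_apply]
          intro h4
          exact h (Finset.mem_filter.1 h4).2
        have h3 := hx0 (B j) s (SA_mono (Set.singleton_subset_iff.2 hi) hs)
        simpa only [z, h, if_false] using h3)
    have h4 : t i ∈ SA {i} :=
      le_SA (ht i) (by rw [hct i]; rfl) (Submodule.mem_span_singleton_self _)
    have h5 := h2 (t i) h4
    rw [one_mul] at h5
    exact gen_ne_zero (ht i) h5
  obtain ⟨t', ht', hann⟩ := kasch_ann hK I hI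
  obtain ⟨e'⟩ := (cls_eq_iff (ht (cls _ ht')) ht').1 (hct _)
  let j := cls _ ht'
  let s := e' ⟨t j, Submodule.mem_span_singleton_self _⟩
  obtain ⟨q, hq⟩ := mem_span_r.1 s.2
  have h1 : (s : R) * z j = 0 := by
    rw [hq, mul_assoc]
    exact hann _ (Submodule.subset_span ⟨j, q, rfl⟩)
  have h2 : MulOpposite.op (z j) • s = 0 := Subtype.ext (by simpa using h1)
  have h3 : MulOpposite.op (z j) • (⟨t j, Submodule.mem_span_singleton_self _⟩ :
      span Rᵐᵒᵖ {t j}) = 0 := by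
    apply e'.injective
    rw [map_smul, map_zero]
    exact h2
  exact hz j (by simpa using congrArg Subtype.val h3)

/-- The rank one elements given by the splitting. -/
theorem exists_rankOne (hK : Kasch R) (hT : Tight R) (hL : LeftCond R) (c : Cls R) :
    ∃ a u t : R, RankOne c a u ∧ IsAtom (span Rᵐᵒᵖ {t}) ∧
      (∀ z, Sing z → t * z = 0) ∧ t * a ≠ 0 := by
  obtain ⟨u, hu, hcu⟩ := exists_cls' c
  have hd : SA {c}ᶜ ⊓ span Rᵐᵒᵖ {u} = ⊥ := SA_inf_atom hu (by rw [hcu]; simp)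
  obtain ⟨K, x, y, z, hK0, hKX, hKmax, h1, hz, hx, hy⟩ := split_one hT hL hd
  have hus : u ∈ Soc R := (le_sSup hu : span Rᵐᵒᵖ {u} ≤ Soc R) (Submodule.mem_span_singleton_self u)
  have hxu : x * u = u := by
    have h2 : u = (x + y + z) * u := by rw [← h1, one_mul]
    rw [add_mul, add_mul, hy u (Submodule.mem_span_singleton_self u), hz u hus,
      add_zero, add_zero] at h2
    exact h2.symm
  have hu0 : u ≠ 0 := gen_ne_zero hu
  have hr1 : RankOne c x u := by
    refine ⟨hu, hcu, by rwa [hxu], fun L hL => ?_, hK0.trans fun k hk => hx k hk⟩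
    have : K ≤ rann x := fun k hk => hx k hk
    exact hKmax L (this.trans_lt hL)
  have hxx : Sing (x * (1 - x)) := by
    refine ⟨_, ess_sup_of_max hKX hKmax, fun w hw => ?_⟩
    obtain ⟨k, hk, s, hs, rfl⟩ := Submodule.mem_sup.1 hw
    obtain ⟨r, rfl⟩ := mem_span_r.1 hs
    have h3 : x * k = 0 := hx k hk
    have h4 : (1 - x) * (u * r) = 0 := by
      rw [← mul_assoc, sub_mul, one_mul, hxu, sub_self, zero_mul]
    rw [mul_assoc, mul_add, h4, add_zero, sub_mul, one_mul, h3, sub_zero, h3]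
  let I : Submodule Rᵐᵒᵖ R := Zr R ⊔ span Rᵐᵒᵖ {1 - x}
  have hI : I ≠ ⊤ := by
    intro hI
    have h2 : (1 : R) ∈ I := by rw [hI]; trivial
    obtain ⟨z', hz', w, hw, hzw⟩ := Submodule.mem_sup.1 h2
    obtain ⟨r, rfl⟩ := mem_span_r.1 hw
    have h3 : Sing x := by
      have h4 : x = x * z' + x * (1 - x) * r := by
        have : x = x * (z' + (1 - x) * r) := by rw [hzw, mul_one]
        rwa [mul_add, ← mul_assoc] at this
      rw [h4]
      exact (Sing.lmul hz' x).add (hxx.rmul r)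
    have h5 := h3.mul_soc hus
    rw [hxu] at h5
    exact hu0 h5
  obtain ⟨t, ht, hann⟩ := kasch_ann hK I hI
  refine ⟨x, u, t, hr1, ht, fun z' hz' => hann z' ((le_sup_left : Zr R ≤ I) hz'), ?_⟩
  have h3 := hann (1 - x)
    ((le_sup_right : span Rᵐᵒᵖ {1 - x} ≤ I) (Submodule.mem_span_singleton_self _))
  rw [mul_sub, mul_one] at h3
  rw [← sub_eq_zero.1 h3]
  exact gen_ne_zero ht

theorem main_T1 (hK : Kasch R) (hT : Tight R) (hL : LeftCond R) :
    (Soc R).FG ∧ ∀ I : Submodule Rᵐᵒᵖ R, I ≠ ⊥ → I ⊓ Soc R ≠ ⊥ :=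
  GP hK (finite_cls_of_sep hK (exists_sep hT hL)) (exists_rankOne hK hT hL)

end Run7.h258
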