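import Pool.Agent.Run7.h258.T3a

/-! Chain conditions on two-sided ideals. -/

set_option autoImplicit false

universe u

namespace Run7.h258

open Submodule

variable {R : Type u} [Ring R]

/-- The ring of additive endomorphisms of `R` generated by the left and right multiplications. -/
def MulRing (R : Type u) [Ring R] : Subring (Module.End ℤ R) :=
  Subring.closure (Set.range (fun a : R => LinearMap.mulLeft ℤ a) ∪
    Set.range (fun a : R => LinearMap.mulRight ℤ a))

/-- Two-sided ideals, as submodules over the ring of multiplications. -/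
abbrev TI (R : Type u) [Ring R] := Submodule (MulRing R) R

theorem TI.left (N : TI R) (a : R) {x : R} (hx : x ∈ N) : a * x ∈ N := by
  have h : LinearMap.mulLeft ℤ a ∈ MulRing R := Subring.subset_closure (Or.inl ⟨a, rfl⟩)
  exact N.smul_mem ⟨_, h⟩ hx

theorem TI.right (N : TI R) (a : R) {x : R} (hx : x ∈ N) : x * a ∈ N := by
  have h : LinearMap.mulRight ℤ a ∈ MulRing R := Subring.subset_closure (Or.inr ⟨a, rfl⟩)
  exact N.smul_mem ⟨_, h⟩ hx

/-- Construction of two-sided ideals. -/
def mkTI (C : AddSubgroup R) (hl : ∀ a x, x ∈ C → a * x ∈ C) (hr : ∀ a x, x ∈ C → x * a ∈ C) :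
    TI R where
  carrier := C
  add_mem' := C.add_mem
  zero_mem' := C.zero_mem
  smul_mem' := by
    rintro ⟨e, he⟩ x hx
    show e x ∈ C
    change x ∈ C at hx
    revert x
    unfold MulRing at he
    induction he using Subring.closure_induction with
    | mem e he =>
      intro x hx
      rcases he with ⟨a, rfl⟩ | ⟨a, rfl⟩
      · exact hl a x hx
      · exact hr a x hx
    | zero => exact fun _ => C.zero_mem
    | one => exact fun hx => hx
    | add e f _ _ he hf => exact fun hx => C.add_mem (he hx) (hf hx)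
    | neg e _ he => exact fun hx => C.neg_mem (he hx)
    | mul e f _ _ he hf => exact fun hx => he (hf hx)

/-- Left annihilator of a two-sided ideal. -/
def lTI (N : TI R) : TI R :=
  mkTI { carrier := {x | ∀ n ∈ N, x * n = 0}
         add_mem' := fun {x y} hx hy n hn => by rw [add_mul, hx n hn, hy n hn, add_zero]
         zero_mem' := fun n _ => zero_mul n
         neg_mem' := fun {x} hx n hn => by rw [neg_mul, hx n hn, neg_zero] }
    (fun a x hx n hn => by rw [mul_assoc, hx n hn, mul_zero])
    (fun a x hx n hn => by rw [mul_assoc]; exact hx _ (N.left a hn))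

theorem mem_lTI {N : TI R} {x : R} : x ∈ lTI N ↔ ∀ n ∈ N, x * n = 0 := Iff.rfl

/-- The underlying right ideal. -/
def TI.toR (N : TI R) : Submodule Rᵐᵒᵖ R where
  carrier := N
  add_mem' := N.add_mem
  zero_mem' := N.zero_mem
  smul_mem' c x hx := by
    have := N.right c.unop hx
    simpa using this

theorem TI.mem_toR {N : TI R} {x : R} : x ∈ N.toR ↔ x ∈ N := Iff.rfl

theorem F1TI (hK : Kasch R) (hT : Tight R) (N : TI R) {x : R} (hx : x ∉ N) :
    ∃ a ∈ lTI N, a * x ≠ 0 := by
  obtain ⟨a, ha, hax⟩ := F1 hK hT N.toR x hx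
  exact ⟨a, ha, hax⟩

theorem lTI_strictAnti (hK : Kasch R) (hT : Tight R) : StrictAnti (lTI (R := R)) := by
  intro N N' hNN
  refine lt_of_le_of_ne (fun x hx n hn => hx n (hNN.le hn)) fun he => ?_
  obtain ⟨x, hx, hxN⟩ := Set.exists_of_ssubset hNN
  obtain ⟨a, ha, hax⟩ := F1TI hK hT N hxN
  rw [← he] at ha
  exact hax (ha x hx)

/-- The homogeneous component as a two-sided ideal. -/
def compTI (c : Cls R) : TI R :=
  mkTI (SA {c}).toAddSubgroup (fun a _ hx => lmul_SA _ a hx) (fun a _ hx => mul_mem_r _ hx a)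

theorem mem_compTI {c : Cls R} {x : R} : x ∈ compTI c ↔ x ∈ SA {c} := Iff.rfl

/-- To a `TI` corresponds a `TwoSidedIdeal`. -/
def TI.toTS (N : TI R) : TwoSidedIdeal R :=
  TwoSidedIdeal.mk' N N.zero_mem (fun hx hy => N.add_mem hx hy) (fun hx => N.neg_mem hx)
    (fun hy => N.left _ hy) (fun hx => N.right _ hx)

theorem TI.mem_toTS {N : TI R} {x : R} : x ∈ N.toTS ↔ x ∈ N :=
  TwoSidedIdeal.mem_mk' _ _ _ _ _ _ _

theorem TI.toTS_strictMono : StrictMono (TI.toTS (R := R)) := by
  intro N N' h
  refine lt_of_le_of_ne (fun x hx => ?_) fun he => ?_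
  · exact TI.mem_toTS.2 (h.le (TI.mem_toTS.1 hx))
  · obtain ⟨x, hx, hxN⟩ := Set.exists_of_ssubset h
    have : x ∈ N'.toTS := TI.mem_toTS.2 hx
    rw [← he] at this
    exact hxN (TI.mem_toTS.1 this)

theorem finite_length (hK : Kasch R) (hT : Tight R)
    (h : WellFoundedGT (TwoSidedIdeal R) ∨ WellFoundedLT (TwoSidedIdeal R)) :
    IsNoetherian (MulRing R) R ∧ IsArtinian (MulRing R) R := by
  have hanti := lTI_strictAnti hK hT
  rcases h with h | h
  · have h1 : WellFoundedGT (TI R) := TI.toTS_strictMono.wellFoundedGT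
    exact ⟨isNoetherian_iff'.2 h1, hanti.wellFoundedLT⟩
  · have h1 : WellFoundedLT (TI R) := TI.toTS_strictMono.wellFoundedLT
    exact ⟨isNoetherian_iff'.2 hanti.wellFoundedGT, h1⟩

/-- In a bimodule of finite length, a strictly antitone self-map of the lattice of submodules
exchanges atoms and coatoms. -/
theorem height_lTI (hK : Kasch R) (hT : Tight R) (h1 : IsNoetherian (MulRing R) R)
    (h2 : IsArtinian (MulRing R) R) (N : TI R) :
    Order.height (lTI N) = Order.coheight N ∧ Order.coheight (lTI N) = Order.height N := by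
  have hanti := lTI_strictAnti hK hT
  have hsum : ∀ N : TI R, Order.height N + Order.coheight N = Module.length (MulRing R) R := by
    intro N
    rw [← Module.length_submodule, ← Module.length_quotient]
    exact (Module.length_eq_add_of_exact N.subtype N.mkQ N.subtype_injective N.mkQ_surjective
      (LinearMap.exact_subtype_mkQ N)).symm
  have hlt : Module.length (MulRing R) R ≠ ⊤ := Module.length_ne_top
  have ha : Order.coheight N ≤ Order.height (lTI N) := by
    have := Order.height_le_height_apply_of_strictMono (α := (TI R)ᵒᵈ) (β := TI R)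
      (fun x => lTI (OrderDual.ofDual x)) (fun x y hxy => hanti hxy) (OrderDual.toDual N)
    simpa using this
  have hb : Order.height N ≤ Order.coheight (lTI N) := by
    have := Order.height_le_height_apply_of_strictMono (α := TI R) (β := (TI R)ᵒᵈ)
      (fun x => OrderDual.toDual (lTI x)) (fun x y hxy => hanti hxy) N
    simpa using this
  have e1 := hsum N
  have e2 := hsum (lTI N)
  generalize Order.height N = a at *
  generalize Order.coheight N = b at *
  generalize Order.height (lTI N) = c at *
  generalize Order.coheight (lTI N) = d at *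
  generalize Module.length (MulRing R) R = l at *
  have hl : ∃ l' : ℕ, l = l' := ⟨l.toNat, (ENat.natCast_toNat hlt).symm⟩
  obtain ⟨l', rfl⟩ := hl
  have hfa : a ≠ ⊤ := by rintro rfl; simp at e1
  have hfb : b ≠ ⊤ := by rintro rfl; simp at e1
  have hfc : c ≠ ⊤ := by rintro rfl; simp at e2
  have hfd : d ≠ ⊤ := by rintro rfl; simp at e2
  obtain ⟨a', rfl⟩ := ENat.ne_top_iff_exists.1 hfa
  obtain ⟨b', rfl⟩ := ENat.ne_top_iff_exists.1 hfb
  obtain ⟨c', rfl⟩ := ENat.ne_top_iff_exists.1 hfc
  obtain ⟨d', rfl⟩ := ENat.ne_top_iff_exists.1 hfd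
  norm_cast at *
  omega

theorem isAtom_iff_height (N : TI R) : IsAtom N ↔ Order.height N = 1 := by
  rw [← Module.length_submodule, Module.length_eq_one_iff, isSimpleModule_iff_isAtom]

theorem isCoatom_iff_coheight (N : TI R) : IsCoatom N ↔ Order.coheight N = 1 := by
  rw [← Module.length_quotient, Module.length_eq_one_iff, isSimpleModule_iff_isCoatom]

theorem isCoatom_lTI (hK : Kasch R) (hT : Tight R) (h1 : IsNoetherian (MulRing R) R)
    (h2 : IsArtinian (MulRing R) R) {N : TI R} (hN : IsAtom N) : IsCoatom (lTI N) := by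
  rw [isCoatom_iff_coheight, (height_lTI hK hT h1 h2 N).2]
  exact (isAtom_iff_height N).1 hN

theorem isAtom_lTI (hK : Kasch R) (hT : Tight R) (h1 : IsNoetherian (MulRing R) R)
    (h2 : IsArtinian (MulRing R) R) {N : TI R} (hN : IsCoatom N) : IsAtom (lTI N) := by
  rw [isAtom_iff_height, (height_lTI hK hT h1 h2 N).1]
  exact (isCoatom_iff_coheight N).1 hN

theorem TI.eq_top_of_one {N : TI R} (h : (1 : R) ∈ N) : N = ⊤ := by
  rw [eq_top_iff]
  intro x _
  have := N.left x h
  rwa [mul_one] at this

theorem TI.sup_inf {M A B : TI R} (hA : M ⊔ A = ⊤) (hB : M ⊔ B = ⊤) : M ⊔ (A ⊓ B) = ⊤ := by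
  apply TI.eq_top_of_one
  have h1 : (1 : R) ∈ M ⊔ A := by rw [hA]; trivial
  have h2 : (1 : R) ∈ M ⊔ B := by rw [hB]; trivial
  obtain ⟨m, hm, a, ha, hma⟩ := Submodule.mem_sup.1 h1
  obtain ⟨m', hm', b, hb, hmb⟩ := Submodule.mem_sup.1 h2
  refine Submodule.mem_sup.2 ⟨m * (m' + b) + a * m', ?_, a * b, ⟨TI.right A b ha, TI.left B a hb⟩, ?_⟩
  · exact M.add_mem (TI.right M _ hm) (TI.left M a hm')
  · calc m * (m' + b) + a * m' + a * b = (m + a) * (m' + b) := by
          rw [add_mul, mul_add a]
          abel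
      _ = 1 := by rw [hma, hmb, one_mul]

theorem TI.sup_finset_inf {M : TI R} (F : Finset (TI R)) (h : ∀ N ∈ F, M ⊔ N = ⊤) :
    M ⊔ F.inf id = ⊤ := by
  classical
  induction F using Finset.induction with
  | empty => simp
  | insert a s ha ih =>
    rw [Finset.inf_insert]
    exact TI.sup_inf (h a (Finset.mem_insert_self a s))
      (ih fun N hN => h N (Finset.mem_insert_of_mem hN))

theorem finite_coatoms (h2 : IsArtinian (MulRing R) R) : Finite {M : TI R // IsCoatom M} := by
  classical
  have hwf : WellFounded ((· < ·) : TI R → TI R → Prop) := wellFounded_lt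
  let 𝒮 : Set (TI R) := {N | ∃ F : Finset (TI R), (∀ M ∈ F, IsCoatom M) ∧ F.inf id = N}
  have hne : 𝒮.Nonempty := ⟨_, ∅, by simp, rfl⟩
  obtain ⟨F, hF, hFN⟩ := hwf.min_mem 𝒮 hne
  have hall : ∀ M : TI R, IsCoatom M → M ∈ F := by
    intro M hM
    by_contra hMF
    have h3 : (insert M F).inf id ∈ 𝒮 := ⟨insert M F, by
      intro N hN
      rcases Finset.mem_insert.1 hN with rfl | hN
      · exact hM
      · exact hF N hN, rfl⟩
    have h4 : ¬ (insert M F).inf id < F.inf id := by
      have := hwf.not_lt_min 𝒮 h3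
      rwa [← hFN] at this
    have h5 : F.inf id ≤ M := by
      rw [Finset.inf_insert] at h4
      by_contra h6
      apply h4
      refine lt_of_le_of_ne inf_le_right fun he => h6 ?_
      rw [← he]
      exact inf_le_left
    have h6 : M ⊔ F.inf id = ⊤ := TI.sup_finset_inf F fun N hN => by
      have hNM : N ≠ M := fun h => hMF (h ▸ hN)
      have h7 : M < M ⊔ N := by
        refine lt_of_le_of_ne le_sup_left fun he => ?_
        have h8 : N ≤ M := by
          rw [he]
          exact le_sup_right
        rcases (hF N hN).le_iff.1 h8 with h9 | h9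
        · exact hM.1 h9
        · exact hNM h9.symm
      exact hM.2 _ h7
    rw [sup_eq_left.2 h5] at h6
    exact hM.1 h6
  exact Finite.of_injective (fun M : {M : TI R // IsCoatom M} => (⟨M.1, hall M.1 M.2⟩ : F))
    (fun M N h => by
      have h3 : M.1 = N.1 := congrArg (fun x : F => x.1) h
      exact Subtype.ext h3)

/-- Chain conditions: finitely many classes and the radical kills the socle. -/
theorem chain_main (hK : Kasch R) (hT : Tight R)
    (h : WellFoundedGT (TwoSidedIdeal R) ∨ WellFoundedLT (TwoSidedIdeal R)) :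
    Finite (Cls R) ∧ ∀ a, Rad {z : R | Sing z} a → ∀ s ∈ Soc R, a * s = 0 := by
  classical
  obtain ⟨h1, h2⟩ := finite_length hK hT h
  have hinj : Function.Injective (lTI (R := R)) := by
    have key : ∀ N N' : TI R, lTI N = lTI N' → N ≤ N' := by
      intro N N' h x hx
      by_contra hxN
      obtain ⟨a, ha, hax⟩ := F1TI hK hT N' hxN
      rw [← h] at ha
      exact hax (ha x hx)
    exact fun N N' h => le_antisymm (key N N' h) (key N' N h.symm)
  let Co := {M : TI R // IsCoatom M}
  let At := {M : TI R // IsAtom M}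
  let fAC : At → Co := fun K => ⟨lTI K.1, isCoatom_lTI hK hT h1 h2 K.2⟩
  let fCA : Co → At := fun K => ⟨lTI K.1, isAtom_lTI hK hT h1 h2 K.2⟩
  have hfAC : Function.Injective fAC := fun K K' h => Subtype.ext (hinj (congrArg Subtype.val h))
  have hfCA : Function.Injective fCA := fun K K' h => Subtype.ext (hinj (congrArg Subtype.val h))
  have hCo : Finite Co := finite_coatoms h2
  have hAt : Finite At := Finite.of_injective fAC hfAC
  have hsCA : Function.Surjective fCA := by
    have : Function.Surjective (fCA ∘ fAC) := Finite.surjective_of_injective (hfCA.comp hfAC)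
    exact this.of_comp
  have hsAC : Function.Surjective fAC := by
    have : Function.Surjective (fAC ∘ fCA) := Finite.surjective_of_injective (hfAC.comp hfCA)
    exact this.of_comp
  have hneb : ∀ c : Cls R, compTI c ≠ ⊥ := by
    intro c h
    obtain ⟨t, ht, hct⟩ := exists_cls' c
    have h3 : t ∈ compTI c := le_SA ht (by rw [hct]; rfl) (Submodule.mem_span_singleton_self _)
    rw [h] at h3
    exact gen_ne_zero ht ((Submodule.mem_bot _).1 h3)
  -- the homogeneous components are minimal two-sided ideals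
  have hatom : ∀ c : Cls R, IsAtom (compTI c) := by
    intro c
    obtain ⟨K, hKat, hKc⟩ : ∃ K : TI R, IsAtom K ∧ K ≤ compTI c := by
      have hat : IsAtomic (TI R) := inferInstance
      rcases hat.eq_bot_or_exists_atom_le (compTI c) with h | ⟨K, h3, h4⟩
      · exact absurd h (hneb c)
      · exact ⟨K, h3, h4⟩
    obtain ⟨⟨M, hM⟩, hMK⟩ := hsCA ⟨K, hKat⟩
    have hMK' : lTI M = K := congrArg Subtype.val hMK
    have hle : compTI c ≤ K := by
      obtain ⟨x, hx, hx0⟩ := Submodule.exists_mem_ne_zero_of_ne_bot hKat.1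
      have hxle : K.toR ≤ SA {c} := fun y hy => hKc hy
      have hKne : K.toR ≠ ⊥ := ne_bot_of_mem (x := x) hx hx0
      obtain ⟨T, hT1, hT2⟩ := exists_atom_le (hxle.trans (SA_le_Soc _)) hKne
      have hTc : cls T hT1 = c := mem_of_le_SA hT1 (hT2.trans hxle)
      rw [← hMK']
      have h5 : SA {c} ≤ (lTI M).toR := by
        refine SA_le fun T' hT' hc' => ?_
        have h6 : cls T hT1 = cls T' hT' := hTc.trans (Set.mem_singleton_iff.1 hc').symm
        obtain ⟨e⟩ := (cls_eq_iff hT1 hT').1 h6
        intro y hy n hn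
        let y' := e.symm ⟨y, hy⟩
        have h7 : (y' : R) * n = 0 := by
          have h8 : (y' : R) ∈ lTI M := by
            rw [hMK']
            exact hT2 y'.2
          exact h8 n hn
        have h9 : MulOpposite.op n • y' = 0 := Subtype.ext (by simpa using h7)
        have h10 : MulOpposite.op n • e y' = 0 := by rw [← map_smul, h9, map_zero]
        have h11 : e y' = ⟨y, hy⟩ := e.apply_symm_apply _
        rw [h11] at h10
        simpa using congrArg Subtype.val h10
      exact h5
    rw [le_antisymm hle hKc]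
    exact hKat
  have hcinj : Function.Injective (fun c : Cls R => (⟨compTI c, hatom c⟩ : At)) := by
    intro c d hcd
    by_contra hne
    have h3 : compTI c = compTI d := congrArg Subtype.val hcd
    obtain ⟨x, hx, hx0⟩ := Submodule.exists_mem_ne_zero_of_ne_bot (hneb c)
    have hx' : x ∈ compTI d := h3 ▸ hx
    exact hx0 (eq_zero_of_disj (SA_disjoint (Set.disjoint_singleton.2 hne)) hx hx')
  have hfin : Finite (Cls R) := Finite.of_injective _ hcinj
  -- every minimal two-sided ideal is a homogeneous component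
  have hAtc : ∀ K : TI R, IsAtom K → ∃ c, K = compTI c := by
    intro K hKat
    obtain ⟨⟨M, hM⟩, hMK⟩ := hsCA ⟨K, hKat⟩
    have hMK' : lTI M = K := congrArg Subtype.val hMK
    have hMR : M.toR ≠ ⊤ := by
      intro h3
      apply hM.1
      apply TI.eq_top_of_one
      have : (1 : R) ∈ M.toR := by rw [h3]; trivial
      exact this
    obtain ⟨t, ht, htM⟩ := kasch_ann hK M.toR hMR
    have htK : t ∈ K := by
      rw [← hMK']
      exact htM
    refine ⟨cls _ ht, ?_⟩
    have htc : t ∈ compTI (cls _ ht) := le_SA ht (Set.mem_singleton _) (Submodule.mem_span_singleton_self _)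
    have h3 : K ⊓ compTI (cls _ ht) ≠ ⊥ := by
      intro h4
      have h5 : t ∈ K ⊓ compTI (cls _ ht) := ⟨htK, htc⟩
      rw [h4] at h5
      exact gen_ne_zero ht ((Submodule.mem_bot _).1 h5)
    have h4 : K ⊓ compTI (cls _ ht) = K := (hKat.le_iff.1 inf_le_left).resolve_left h3
    have h5 : K ⊓ compTI (cls _ ht) = compTI (cls _ ht) :=
      ((hatom _).le_iff.1 inf_le_right).resolve_left h3
    rw [← h4]
    exact h5
  -- coatoms
  have hCoc : ∀ M : TI R, IsCoatom M → ∃ c, M = lTI (compTI c) := by
    intro M hM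
    obtain ⟨⟨K, hKat⟩, hKM⟩ := hsAC ⟨M, hM⟩
    obtain ⟨c, rfl⟩ := hAtc K hKat
    exact ⟨c, (congrArg Subtype.val hKM).symm⟩
  have hCor : ∀ M : TI R, IsCoatom M → ∃ d, (∀ x, x ∈ M ↔ ∀ s ∈ SA {d}, s * x = 0) := by
    intro M hM
    obtain ⟨d, hd⟩ := hAtc _ (isAtom_lTI hK hT h1 h2 hM)
    refine ⟨d, fun x => ⟨fun hx s hs => ?_, fun hx => ?_⟩⟩
    · have : s ∈ lTI M := by
        rw [hd]
        exact hs
      exact this x hx
    · by_contra hxM
      obtain ⟨a, ha, hax⟩ := F1TI hK hT M hxM
      rw [hd] at ha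
      exact hax (hx a ha)
  have hdM : ∀ d, ∃ M : TI R, IsCoatom M ∧ lTI M = compTI d := by
    intro d
    obtain ⟨⟨M, hM⟩, hMK⟩ := hsCA ⟨compTI d, hatom d⟩
    exact ⟨M, hM, congrArg Subtype.val hMK⟩
  refine ⟨hfin, fun a ha s hs => ?_⟩
  -- the singular ideal lies in every maximal right ideal
  have hZ : ∀ m : Submodule Rᵐᵒᵖ R, IsCoatom m → ∀ z : R, Sing z → z ∈ m := by
    intro m hm z hz
    obtain ⟨t, ht, htm⟩ := kasch_ann hK m hm.1
    obtain ⟨M, hM, hMd⟩ := hdM (cls _ ht)
    obtain ⟨c, hc⟩ := hCoc M hM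
    have hzM : z ∈ M := by
      rw [hc]
      exact fun n hn => hz.mul_soc (SA_le_Soc _ hn)
    have htz : t * z = 0 := by
      have htc : t ∈ lTI M := by
        rw [hMd]
        exact le_SA ht (Set.mem_singleton _) (Submodule.mem_span_singleton_self _)
      exact htc z hzM
    by_contra hzm
    have h3 : m < rann t := by
      refine lt_of_le_of_ne (fun x hx => htm x hx) ?_
      rintro he
      apply hzm
      rw [he]
      exact htz
    have h4 := hm.2 _ h3
    have h5 : (1 : R) ∈ rann t := by rw [h4]; trivial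
    rw [mem_rann, mul_one] at h5
    exact gen_ne_zero ht h5
  -- a annihilates all simple right ideals from the right
  have hta : ∀ T : Submodule Rᵐᵒᵖ R, IsAtom T → ∀ t ∈ T, t * a = 0 := by
    intro T hTat t ht
    by_cases ht0 : t = 0
    · rw [ht0, zero_mul]
    · have hco : IsCoatom (rann t) := by
        have hs : IsSimpleModule Rᵐᵒᵖ T := isSimpleModule_iff_isAtom.2 hTat
        let f : R →ₗ[Rᵐᵒᵖ] T := LinearMap.codRestrict T (lmul t) (fun x => mul_mem_r T ht x)
        have hf : Function.Surjective f := by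
          intro y
          obtain ⟨r, hr⟩ := atom_mul hTat ht ht0 y.2
          exact ⟨r, Subtype.ext hr.symm⟩
        have hker : LinearMap.ker f = rann t := by
          ext x
          constructor
          · intro hx
            exact congrArg Subtype.val hx
          · intro hx
            exact Subtype.ext hx
        rw [← hker]
        exact LinearMap.isCoatom_ker_of_surjective hf
      exact ha _ hco (fun x hx => hZ _ hco x hx)
  have haM : ∀ M : TI R, IsCoatom M → a ∈ M := by
    intro M hM
    obtain ⟨d, hd⟩ := hCor M hM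
    rw [hd]
    let Q : Submodule Rᵐᵒᵖ R :=
      { carrier := {s | ∀ r : R, s * (r * a) = 0}
        add_mem' := fun {x y} hx hy r => by rw [add_mul, hx r, hy r, add_zero]
        zero_mem' := fun r => zero_mul _
        smul_mem' := fun c x hx r => by
          have h3 : (c • x) * (r * a) = x * (c.unop * r * a) := by simp [mul_assoc]
          rw [h3]
          exact hx _ }
    have hQ : SA {d} ≤ Q := SA_le fun T hT1 _ t ht r => by
      rw [← mul_assoc]
      exact hta T hT1 _ (mul_mem_r T ht r)
    intro s hs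
    have := hQ hs 1
    rwa [one_mul] at this
  have haS : Soc R ≤ rann a := by
    refine sSup_le fun T hT1 => ?_
    have h3 : a ∈ lTI (compTI (cls T hT1)) := haM _ (isCoatom_lTI hK hT h1 h2 (hatom _))
    intro t ht
    exact h3 t (le_SA hT1 (Set.mem_singleton _) ht)
  exact haS hs

theorem main_T2 (hK : Kasch R) (hT : Tight R)
    (h : WellFoundedGT (TwoSidedIdeal R) ∨ WellFoundedLT (TwoSidedIdeal R)) :
    (Soc R).FG ∧ ∀ I : Submodule Rᵐᵒᵖ R, I ≠ ⊥ → I ⊓ Soc R ≠ ⊥ := by
  obtain ⟨h1, h2⟩ := chain_main hK hT h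
  exact main_of_finite hK hT h1 (W := {z : R | Sing z}) (fun z hz => hz)
    (fun a ha s hs => ⟨1, by rw [pow_one]; exact h2 a ha s hs⟩)

end Run7.h258
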