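import Pool.Agent.Run7.h258.GP

/-! Finitely many simple modules, and the radical modulo the singular ideal acts locally
nilpotently on the socle. -/

set_option autoImplicit false

universe u

namespace Run7.h258

open Submodule

variable {R : Type u} [Ring R]

/-- `a` lies in every maximal right ideal that contains the set `I`. -/
def Rad (I : Set R) (a : R) : Prop :=
  ∀ m : Submodule Rᵐᵒᵖ R, IsCoatom m → (∀ x ∈ I, x ∈ m) → a ∈ m

theorem Rad.rmul {I : Set R} {a : R} (h : Rad I a) (b : R) : Rad I (a * b) :=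
  fun m hm hI => mul_mem_r m (h m hm hI) b

theorem exists_t_of_not_rad (hK : Kasch R) {I : Set R} {a : R} (h : ¬ Rad I a) :
    ∃ t : R, IsAtom (span Rᵐᵒᵖ {t}) ∧ (∀ x ∈ I, t * x = 0) ∧ t * a ≠ 0 := by
  unfold Rad at h
  push Not at h
  obtain ⟨m, hm, hI, ham⟩ := h
  obtain ⟨t, ht, hann⟩ := kasch_ann hK m hm.1
  refine ⟨t, ht, fun x hx => hann x (hI x hx), fun h0 => ?_⟩
  have h1 : m < rann t := by
    refine lt_of_le_of_ne (fun x hx => hann x hx) ?_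
    rintro he
    apply ham
    rw [he]
    exact h0
  have h2 := hm.2 _ h1
  have h3 : (1 : R) ∈ rann t := by rw [h2]; trivial
  rw [mem_rann, mul_one] at h3
  exact gen_ne_zero ht h3

theorem exists_rankOne_of (hT : Tight R) {c : Cls R} {u : R} (hu : IsAtom (span Rᵐᵒᵖ {u}))
    (hcu : cls _ hu = c) {K₀ : Submodule Rᵐᵒᵖ R} (hK₀ : SA {c}ᶜ ≤ K₀)
    (hd : K₀ ⊓ span Rᵐᵒᵖ {u} = ⊥) : ∃ a : R, RankOne c a u ∧ K₀ ≤ rann a := by
  obtain ⟨K, hKK, hKd, hKmax⟩ := exists_max_disjoint (span Rᵐᵒᵖ {u}) K₀ hd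
  obtain ⟨F, hF⟩ := P1 hT hKd hKmax
  have huK : u ∉ K := fun h =>
    gen_ne_zero hu (eq_zero_of_disj hKd h (Submodule.mem_span_singleton_self u))
  have h1 : ¬ ∀ f ∈ F, f * u = 0 := fun h => huK ((hF u).2 h)
  push Not at h1
  obtain ⟨f, hf, hfu⟩ := h1
  have hKf : K ≤ rann f := fun x hx => (hF x).1 hx f hf
  exact ⟨f, ⟨hu, hcu, hfu, fun L hL => hKmax L (hKf.trans_lt hL), hK₀.trans (hKK.trans hKf)⟩,
    hKK.trans hKf⟩

/-- `b * a` does not kill the socle. -/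
def Rel (a b : R) : Prop := ∃ s ∈ Soc R, b * (a * s) ≠ 0

theorem RankOne.u_mem {c : Cls R} {a u : R} (h : RankOne c a u) : u ∈ Soc R := by
  obtain ⟨hu, -⟩ := h
  exact (le_sSup hu : span Rᵐᵒᵖ {u} ≤ Soc R) (Submodule.mem_span_singleton_self u)

theorem RankOne.atom {c : Cls R} {a u : R} (h : RankOne c a u) :
    ∃ h' : IsAtom (span Rᵐᵒᵖ {a * u}), cls _ h' = c := by
  obtain ⟨hu, hc, hau, -⟩ := h
  have h1 := isAtom_map hu (lmul a) (Submodule.mem_span_singleton_self u) hau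
  have h2 := cls_map hu (lmul a) (Submodule.mem_span_singleton_self u) hau h1.1
  have h3 : (span Rᵐᵒᵖ {u}).map (lmul a) = span Rᵐᵒᵖ {a * u} := by
    rw [Submodule.map_span, Set.image_singleton]
    rfl
  have h4 : IsAtom (span Rᵐᵒᵖ {a * u}) := h3 ▸ h1.1
  refine ⟨h4, ?_⟩
  rw [← hc, ← h2]
  congr 1
  exact h3.symm

theorem RankOne.mul_soc {c : Cls R} {a u : R} (h : RankOne c a u) {s : R} (hs : s ∈ Soc R) :
    ∃ r : R, a * s = a * u * r :=
  mem_span_r.1 (h.map_soc (Submodule.mem_map_of_mem hs))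

theorem RankOne.rel_iff {c : Cls R} {a u : R} (h : RankOne c a u) (b : R) :
    Rel a b ↔ b * (a * u) ≠ 0 := by
  constructor
  · rintro ⟨s, hs, hne⟩ h0
    obtain ⟨r, hr⟩ := h.mul_soc hs
    rw [hr, ← mul_assoc, h0, zero_mul] at hne
    exact hne rfl
  · intro h1
    exact ⟨u, h.u_mem, h1⟩

/-- If `b` does not kill the generator of a simple right ideal then it does not kill its nonzero
elements. -/
theorem mul_ne_zero_of_atom {T : Submodule Rᵐᵒᵖ R} (hT : IsAtom T) {b t s : R} (ht : t ∈ T)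
    (hbt : b * t ≠ 0) (hs : s ∈ T) (hs0 : s ≠ 0) : b * s ≠ 0 := by
  intro h0
  obtain ⟨r, rfl⟩ := atom_mul hT hs hs0 ht
  rw [← mul_assoc, h0, zero_mul] at hbt
  exact hbt rfl

theorem rel_asymm {W : Set R} (hnil : ∀ a, Rad W a → ∀ s ∈ Soc R, ∃ n : ℕ, a ^ n * s = 0)
    {c : Cls R} {a u b v : R} (ha : RankOne c a u) (hb : RankOne c b v)
    (hrad : Rad W a) (hab : Rel a b) (hba : Rel b a) : False := by
  have h1 : b * (a * u) ≠ 0 := (ha.rel_iff b).1 hab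
  have h2 : a * (b * v) ≠ 0 := (hb.rel_iff a).1 hba
  obtain ⟨hTa, -⟩ := ha.atom
  obtain ⟨hTb, -⟩ := hb.atom
  have hau : a * u ≠ 0 := gen_ne_zero hTa
  have key : ∀ n : ℕ, (a * b) ^ n * (a * u) ≠ 0 ∧
      (a * b) ^ n * (a * u) ∈ span Rᵐᵒᵖ {a * u} := by
    intro n
    induction n with
    | zero => exact ⟨by rwa [pow_zero, one_mul], by
        rw [pow_zero, one_mul]; exact Submodule.mem_span_singleton_self _⟩
    | succ n ih =>
      obtain ⟨ih1, ih2⟩ := ih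
      set y := (a * b) ^ n * (a * u) with hy
      have h3 : (a * b) ^ (n + 1) * (a * u) = a * (b * y) := by
        rw [pow_succ', mul_assoc, ← hy, mul_assoc]
      have hyS : y ∈ Soc R := (le_sSup hTa : span Rᵐᵒᵖ {a * u} ≤ Soc R) ih2
      have h4 : b * y ≠ 0 := mul_ne_zero_of_atom hTa (Submodule.mem_span_singleton_self _) h1
        ih2 ih1
      have h5 : b * y ∈ span Rᵐᵒᵖ {b * v} := hb.map_soc (Submodule.mem_map_of_mem hyS)
      have h6 : a * (b * y) ≠ 0 := mul_ne_zero_of_atom hTb (Submodule.mem_span_singleton_self _) h2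
        h5 h4
      rw [h3]
      refine ⟨h6, ha.map_soc (Submodule.mem_map_of_mem (lmul_Soc b hyS))⟩
  obtain ⟨n, hn⟩ := hnil (a * b) (hrad.rmul b) (a * u) (lmul_Soc a ha.u_mem)
  exact (key n).1 hn

/-- A strictly ordered family of elements of rank one. -/
def Good (c : Cls R) (𝔽 : Set R) : Prop :=
  (∀ a ∈ 𝔽, ∃ u, RankOne c a u) ∧ (∀ a ∈ 𝔽, ∀ b ∈ 𝔽, a ≠ b → Rel a b ∨ Rel b a) ∧
    (∀ a ∈ 𝔽, ∀ b ∈ 𝔽, ∀ d ∈ 𝔽, Rel a b → Rel b d → Rel a d)

theorem exists_max_good {c : Cls R} {𝔽₀ : Set R} (h : Good c 𝔽₀) :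
    ∃ 𝔽, 𝔽₀ ⊆ 𝔽 ∧ Good c 𝔽 ∧ ∀ 𝔾, Good c 𝔾 → 𝔽 ⊆ 𝔾 → 𝔾 ⊆ 𝔽 := by
  obtain ⟨𝔽, h1, h2⟩ := zorn_subset_nonempty {𝔽 : Set R | Good c 𝔽} (by
    intro C hC hch hne
    refine ⟨⋃₀ C, ⟨?_, ?_, ?_⟩, fun s hs => Set.subset_sUnion_of_mem hs⟩
    · rintro a ⟨s, hs, ha⟩
      exact (hC hs).1 a ha
    · rintro a ⟨s, hs, ha⟩ b ⟨t, ht, hb⟩ hab
      obtain ⟨w, hw, hsw, htw⟩ := hch.directedOn s hs t ht
      exact (hC hw).2.1 a (hsw ha) b (htw hb) hab
    · rintro a ⟨s, hs, ha⟩ b ⟨t, ht, hb⟩ d ⟨r, hr, hd⟩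
      obtain ⟨w, hw, hsw, htw⟩ := hch.directedOn s hs t ht
      obtain ⟨w', hw', hww, hrw⟩ := hch.directedOn w hw r hr
      exact (hC hw').2.2 a (hww (hsw ha)) b (hww (htw hb)) d (hrw hd)) 𝔽₀ h
  exact ⟨𝔽, h1, h2.1, fun 𝔾 h3 h4 => h2.2 h3 h4⟩

theorem exists_rankOne_not_rad (hT : Tight R) {W : Set R}
    (hnil : ∀ a, Rad W a → ∀ s ∈ Soc R, ∃ n : ℕ, a ^ n * s = 0) (c : Cls R) :
    ∃ a u : R, RankOne c a u ∧ ¬ Rad W a := by
  classical
  by_contra hcon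
  push Not at hcon
  -- asymmetry
  have hasym : ∀ a b, (∃ u, RankOne c a u) → (∃ v, RankOne c b v) → Rel a b → Rel b a → False :=
    fun a b ⟨u, ha⟩ ⟨v, hb⟩ h1 h2 => rel_asymm hnil ha hb (hcon a u ha) h1 h2
  have hirr : ∀ a, (∃ u, RankOne c a u) → ¬ Rel a a := fun a ha h => hasym a a ha ha h h
  -- a first element
  obtain ⟨u₀, hu₀, hcu₀⟩ := exists_cls' c
  obtain ⟨b₀, hb₀, -⟩ := exists_rankOne_of hT hu₀ hcu₀ le_rfl
    (SA_inf_atom hu₀ (by rw [hcu₀]; simp))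
  have hgood₀ : Good c {b₀} := by
    refine ⟨?_, ?_, ?_⟩
    · rintro a rfl
      exact ⟨u₀, hb₀⟩
    · rintro a rfl b rfl h
      exact absurd rfl h
    · rintro a rfl b rfl d rfl h _
      exact h
  obtain ⟨𝔽, h𝔽₀, hgood, hmax⟩ := exists_max_good hgood₀
  have hb₀𝔽 : b₀ ∈ 𝔽 := h𝔽₀ rfl
  choose! u hu using hgood.1
  let ι := {a : R // a ∈ 𝔽}
  let p : ι → Submodule Rᵐᵒᵖ R := fun a => span Rᵐᵒᵖ {a.1 * u a.1}
  have hpat : ∀ a : ι, ∃ h' : IsAtom (p a), cls _ h' = c := fun a => (hu a.1 a.2).atom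
  let i₀ : ι := ⟨b₀, hb₀𝔽⟩
  have he : ∀ a : ι, Nonempty (p a ≃ₗ[Rᵐᵒᵖ] p i₀) := by
    intro a
    obtain ⟨h1, h2⟩ := hpat a
    obtain ⟨h3, h4⟩ := hpat i₀
    exact (cls_eq_iff h1 h3).1 (h2.trans h4.symm)
  let e : ∀ a : ι, p a ≃ₗ[Rᵐᵒᵖ] p i₀ := fun a => Classical.choice (he a)
  let σ : (Π₀ i : ι, p i) →ₗ[Rᵐᵒᵖ] R := DFinsupp.lsum ℕ (fun i => (p i).subtype)
  let φ : (Π₀ i : ι, p i) →ₗ[Rᵐᵒᵖ] p i₀ := DFinsupp.lsum ℕ (fun i => (e i).toLinearMap)
  have hσs : ∀ (i : ι) (x : p i), σ (DFinsupp.single i x) = x := fun i x => by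
    simp [σ]
  have hφs : ∀ (i : ι) (x : p i), φ (DFinsupp.single i x) = e i x := fun i x => by
    simp [φ]
  have hσsum : ∀ v : Π₀ i : ι, p i, σ v = ∑ i ∈ v.support, (v i : R) := by
    intro v
    simp only [σ, DFinsupp.lsum_apply_apply, DFinsupp.sumAddHom_apply]
    rfl
  -- independence
  have hkill : ∀ (a b : ι), ¬ Rel a.1 b.1 → ∀ x ∈ p a, b.1 * x = 0 := by
    intro a b hab x hx
    obtain ⟨r, rfl⟩ := mem_span_r.1 hx
    have h1 : b.1 * (a.1 * u a.1) = 0 := by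
      by_contra h2
      exact hab (((hu a.1 a.2).rel_iff b.1).2 h2)
    rw [← mul_assoc, h1, zero_mul]
  have hnkill : ∀ (a b : ι), Rel a.1 b.1 → ∀ x ∈ p a, x ≠ 0 → b.1 * x ≠ 0 := by
    intro a b hab x hx hx0
    obtain ⟨h1, -⟩ := hpat a
    exact mul_ne_zero_of_atom h1 (Submodule.mem_span_singleton_self _)
      (((hu a.1 a.2).rel_iff b.1).1 hab) hx hx0
  have hmin : ∀ T : Finset ι, T.Nonempty → ∃ a ∈ T, ∀ b ∈ T, ¬ Rel b.1 a.1 := by
    intro T hTne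
    induction hTne using Finset.Nonempty.cons_induction with
    | singleton a =>
      refine ⟨a, Finset.mem_singleton_self a, ?_⟩
      intro b hb
      rw [Finset.mem_singleton.1 hb]
      exact hirr _ (hgood.1 _ a.2)
    | cons a T ha hTne ih =>
      obtain ⟨m, hm, hmin⟩ := ih
      by_cases h : Rel a.1 m.1
      · refine ⟨a, Finset.mem_cons_self a T, ?_⟩
        intro b hb hba
        rcases Finset.mem_cons.1 hb with rfl | hb
        · exact hirr _ (hgood.1 _ b.2) hba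
        · exact hmin b hb (hgood.2.2 _ b.2 _ a.2 _ m.2 hba h)
      · refine ⟨m, Finset.mem_cons_of_mem hm, ?_⟩
        intro b hb
        rcases Finset.mem_cons.1 hb with rfl | hb
        · exact h
        · exact hmin b hb
  have hσinj : ∀ v, σ v = 0 → v = 0 := by
    intro v hv
    by_contra hne
    have hsupp : v.support.Nonempty := by
      rw [Finset.nonempty_iff_ne_empty]
      intro h
      exact hne (DFinsupp.support_eq_empty.1 h)
    obtain ⟨a, haT, hamin⟩ := hmin _ hsupp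
    have hva : (v a : R) ≠ 0 := by
      intro h
      exact (DFinsupp.mem_support_iff.1 haT) (Subtype.ext h)
    rw [hσsum] at hv
    by_cases hT1 : (v.support.erase a).Nonempty
    · obtain ⟨b, hbT, hbmin⟩ := hmin _ hT1
      have hba : b ≠ a := (Finset.mem_erase.1 hbT).1
      have hbT' : b ∈ v.support := (Finset.mem_erase.1 hbT).2
      have hrel : Rel a.1 b.1 := by
        rcases hgood.2.1 a.1 a.2 b.1 b.2 (fun h => hba (Subtype.ext h.symm)) with h | h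
        · exact h
        · exact absurd h (hamin b hbT')
      have h1 : b.1 * ∑ i ∈ v.support, (v i : R) = 0 := by rw [hv, mul_zero]
      rw [Finset.mul_sum, Finset.sum_eq_single_of_mem a haT] at h1
      · exact hnkill a b hrel _ (v a).2 hva h1
      · intro j hj hja
        exact hkill j b (hbmin j (Finset.mem_erase.2 ⟨hja, hj⟩)) _ (v j).2
    · rw [Finset.not_nonempty_iff_eq_empty] at hT1
      have h2 : v.support = {a} := by
        rw [← Finset.insert_erase haT, hT1]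
        rfl
      rw [h2, Finset.sum_singleton] at hv
      exact hva hv
  have hσinj' : Function.Injective σ := by
    intro v w hvw
    have h1 : v + (-1 : Rᵐᵒᵖ) • w = 0 := by
      apply hσinj
      rw [map_add, map_smul, hvw, neg_one_smul, add_neg_cancel]
    refine DFinsupp.ext fun i => Subtype.ext ?_
    have h2 := congrArg (fun v : Π₀ i : ι, p i => (v i : R)) h1
    simp only [DFinsupp.coe_add, Pi.add_apply, DFinsupp.coe_smul, Pi.smul_apply,
      DFinsupp.coe_zero, Pi.zero_apply, Submodule.coe_add,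
      ZeroMemClass.coe_zero, neg_one_smul] at h2
    exact add_neg_eq_zero.1 h2
  -- the kernel of the functional
  let V : Submodule Rᵐᵒᵖ R := (LinearMap.ker φ).map σ
  have hpSA : ∀ i, p i ≤ SA {c} := by
    intro i
    obtain ⟨h1, h2⟩ := hpat i
    exact le_SA h1 (by rw [h2]; rfl)
  have hVSA : V ≤ SA {c} := by
    rintro _ ⟨v, -, rfl⟩
    rw [hσsum]
    exact Submodule.sum_mem _ fun i _ => hpSA i (v i).2
  have hVd : V ⊓ p i₀ = ⊥ := by
    rw [eq_bot_iff]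
    rintro x ⟨⟨v, hv, hvx⟩, hx⟩
    have h1 : v = DFinsupp.single i₀ ⟨x, hx⟩ := hσinj' (by rw [hσs]; exact hvx)
    have h2 : φ v = 0 := hv
    rw [h1, hφs] at h2
    have h3 : (⟨x, hx⟩ : p i₀) = 0 := (e i₀).injective (by rw [h2, map_zero])
    exact (Submodule.mem_bot _).2 (congrArg Subtype.val h3)
  have hsV : ∀ a : ι, a.1 * u a.1 ∉ V := by
    rintro a ⟨v, hv, hva⟩
    have hmem : a.1 * u a.1 ∈ p a := Submodule.mem_span_singleton_self _
    have h1 : v = DFinsupp.single a ⟨a.1 * u a.1, hmem⟩ := hσinj' (by rw [hσs]; exact hva)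
    have h2 : φ v = 0 := hv
    rw [h1, hφs] at h2
    have h3 : (⟨a.1 * u a.1, hmem⟩ : p a) = 0 := (e a).injective (by rw [h2, map_zero])
    obtain ⟨h4, -⟩ := hpat a
    exact gen_ne_zero h4 (congrArg Subtype.val h3)
  have hsVU : ∀ a : ι, ∃ w ∈ p i₀, a.1 * u a.1 - w ∈ V := by
    intro a
    have hmem : a.1 * u a.1 ∈ p a := Submodule.mem_span_singleton_self _
    let x : p a := ⟨a.1 * u a.1, hmem⟩
    refine ⟨_, ((e i₀).symm (e a x)).2, ⟨DFinsupp.single a x +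
      (-1 : Rᵐᵒᵖ) • DFinsupp.single i₀ ((e i₀).symm (e a x)), ?_, ?_⟩⟩
    · show φ _ = 0
      rw [map_add, map_smul, hφs, hφs, LinearEquiv.apply_symm_apply]
      refine Subtype.ext ?_
      rw [Submodule.coe_add, Submodule.coe_smul, neg_one_smul, add_neg_cancel]
      rfl
    · rw [map_add, map_smul, hσs, hσs, neg_one_smul, ← sub_eq_add_neg]
  -- the new element
  obtain ⟨hi1, hi2⟩ := hpat i₀
  have hd : (V ⊔ SA {c}ᶜ) ⊓ span Rᵐᵒᵖ {i₀.1 * u i₀.1} = ⊥ := by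
    rw [eq_bot_iff]
    rintro x ⟨hx1, hx2⟩
    obtain ⟨v, hv, y, hy, rfl⟩ := Submodule.mem_sup.1 hx1
    have h1 : y ∈ SA {c} := by
      have : y = (v + y) - v := by abel
      rw [this]
      exact Submodule.sub_mem _ (hpSA i₀ hx2) (hVSA hv)
    have h2 : y = 0 := eq_zero_of_disj (SA_disjoint (disjoint_compl_right)) h1 hy
    subst h2
    rw [add_zero] at hx2 ⊢
    rw [← hVd]
    exact ⟨hv, hx2⟩
  obtain ⟨b, hb, hKb⟩ := exists_rankOne_of hT hi1 hi2 (le_sup_right) hd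
  have hrelb : ∀ a ∈ 𝔽, Rel a b := by
    intro a ha
    rw [(hu a ha).rel_iff b]
    obtain ⟨w, hw, hVw⟩ := hsVU ⟨a, ha⟩
    intro h0
    have h1 : b * (a * u a - w) = 0 := hKb ((le_sup_left : V ≤ V ⊔ SA {c}ᶜ) hVw)
    rw [mul_sub, h0, zero_sub, neg_eq_zero] at h1
    have h2 : w = 0 := eq_zero_of_disj hb.disj h1 hw
    rw [h2, sub_zero] at hVw
    exact hsV ⟨a, ha⟩ hVw
  have hbP : ∃ v, RankOne c b v := ⟨_, hb⟩
  have hgood' : Good c (insert b 𝔽) := by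
    refine ⟨?_, ?_, ?_⟩
    · intro a ha
      rcases Set.mem_insert_iff.1 ha with rfl | ha
      · exact hbP
      · exact hgood.1 a ha
    · intro a ha d hd' hne
      rcases Set.mem_insert_iff.1 ha with ha1 | ha1
      · rcases Set.mem_insert_iff.1 hd' with hd1 | hd1
        · exact absurd (ha1.trans hd1.symm) hne
        · rw [ha1]
          exact Or.inr (hrelb d hd1)
      · rcases Set.mem_insert_iff.1 hd' with hd1 | hd1
        · rw [hd1]
          exact Or.inl (hrelb a ha1)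
        · exact hgood.2.1 a ha1 d hd1 hne
    · intro x hx y hy w hw hxy hyw
      rcases Set.mem_insert_iff.1 hx with hx1 | hx1
      · rcases Set.mem_insert_iff.1 hy with hy1 | hy1
        · rw [hx1]
          rw [hy1] at hyw
          exact hyw
        · rw [hx1] at hxy
          exact (hasym y _ (hgood.1 y hy1) hbP (hrelb y hy1) hxy).elim
      · rcases Set.mem_insert_iff.1 hw with hw1 | hw1
        · rw [hw1]
          exact hrelb x hx1
        · rcases Set.mem_insert_iff.1 hy with hy1 | hy1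
          · rw [hy1] at hyw
            exact (hasym w _ (hgood.1 w hw1) hbP (hrelb w hw1) hyw).elim
          · exact hgood.2.2 x hx1 y hy1 w hw1 hxy hyw
  have hb𝔽 : b ∈ 𝔽 := hmax _ hgood' (Set.subset_insert _ _) (Set.mem_insert _ _)
  exact hirr b hbP (hrelb b hb𝔽)

/-- If there are only finitely many simple modules annihilated by the ideal `W ⊇ Z`, and each
class has an element of rank one outside the radical modulo `W`, then there are only finitely many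
classes. -/
theorem finite_cls (hK : Kasch R) (W : TwoSidedIdeal R) (hZ : ∀ z, Sing z → z ∈ W)
    (hrank : ∀ c : Cls R, ∃ a u : R, RankOne c a u ∧ ¬ Rad {x : R | x ∈ W} a)
    (h : ∃ (n : ℕ) (T : Fin n → Type u) (_ : ∀ i, AddCommGroup (T i))
      (_ : ∀ i, Module Rᵐᵒᵖ (T i)), ∀ (M : Type u) [AddCommGroup M] [Module Rᵐᵒᵖ M],
        IsSimpleModule Rᵐᵒᵖ M → (∀ (x : M), ∀ w ∈ W, MulOpposite.op w • x = 0) →
          ∃ i, Nonempty (M ≃ₗ[Rᵐᵒᵖ] T i)) : Finite (Cls R) := by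
  obtain ⟨n, T, _, _, hT⟩ := h
  have h1 : ∀ c : Cls R, ∃ a u t : R, RankOne c a u ∧ IsAtom (span Rᵐᵒᵖ {t}) ∧
      (∀ z ∈ W, t * z = 0) ∧ t * a ≠ 0 := by
    intro c
    obtain ⟨a, u, hau, hrad⟩ := hrank c
    obtain ⟨t, ht, hz, hta⟩ := exists_t_of_not_rad hK hrad
    exact ⟨a, u, t, hau, ht, hz, hta⟩
  choose a u t hau hat hz hta using h1
  have h2 : ∀ c : Cls R, ∃ i, Nonempty (span Rᵐᵒᵖ {t c} ≃ₗ[Rᵐᵒᵖ] T i) := by
    intro c
    refine hT _ (isSimpleModule_iff_isAtom.2 (hat c)) fun x z hzs => Subtype.ext ?_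
    obtain ⟨q, hq⟩ := mem_span_r.1 x.2
    have h3 : (x : R) * z = 0 := by
      rw [hq, mul_assoc]
      exact hz c _ (W.mul_mem_left q z hzs)
    simpa using h3
  choose i hi using h2
  have hinj : Function.Injective (fun c => cls _ (hat c)) :=
    injective_t hau hat (fun c z hzs => hz c z (hZ z hzs)) hta
  refine Finite.of_injective i fun c d hcd => hinj ?_
  obtain ⟨e⟩ := hi c
  obtain ⟨f⟩ := hi d
  rw [← hcd] at f
  exact (cls_eq_iff _ _).2 ⟨e.trans f.symm⟩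

theorem main_of_finite (hK : Kasch R) (hT : Tight R) (hfin : Finite (Cls R)) {W : Set R}
    (hZ : ∀ z, Sing z → z ∈ W)
    (hnil : ∀ a, Rad W a → ∀ s ∈ Soc R, ∃ n : ℕ, a ^ n * s = 0) :
    (Soc R).FG ∧ ∀ I : Submodule Rᵐᵒᵖ R, I ≠ ⊥ → I ⊓ Soc R ≠ ⊥ := by
  refine GP hK hfin fun c => ?_
  obtain ⟨a, u, hau, hrad⟩ := exists_rankOne_not_rad hT hnil c
  obtain ⟨t, ht, hz, hta⟩ := exists_t_of_not_rad hK hrad
  exact ⟨a, u, t, hau, ht, fun z hzs => hz z (hZ z hzs), hta⟩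

theorem main_T3a (hK : Kasch R) (hT : Tight R) (W : TwoSidedIdeal R)
    (hZ : ∀ z, Sing z → z ∈ W)
    (hfin : ∃ (n : ℕ) (T : Fin n → Type u) (_ : ∀ i, AddCommGroup (T i))
      (_ : ∀ i, Module Rᵐᵒᵖ (T i)), ∀ (M : Type u) [AddCommGroup M] [Module Rᵐᵒᵖ M],
        IsSimpleModule Rᵐᵒᵖ M → (∀ (x : M), ∀ w ∈ W, MulOpposite.op w • x = 0) →
          ∃ i, Nonempty (M ≃ₗ[Rᵐᵒᵖ] T i))
    (hnil : ∀ a, (∀ m : Submodule Rᵐᵒᵖ R, IsCoatom m → (∀ x ∈ W, x ∈ m) → a ∈ m) →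
      ∀ s ∈ Soc R, ∃ n : ℕ, a ^ n * s = 0) :
    (Soc R).FG ∧ ∀ I : Submodule Rᵐᵒᵖ R, I ≠ ⊥ → I ⊓ Soc R ≠ ⊥ :=
  main_of_finite hK hT
    (finite_cls hK W hZ (exists_rankOne_not_rad hT (W := {x : R | x ∈ W}) hnil) hfin)
    (W := {x : R | x ∈ W}) hZ hnil

end Run7.h258
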