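import Pool.Agent.Run7.h258.T3a
import Pool.Agent.Run7.h258.AD

/-! Radicals of factor rings of R/Z that are `n`-locally nilpotent, for rings such that every
cyclic submodule of the injective hull embeds in `R ^ m` for some `m ≤ n`. -/

set_option autoImplicit false

universe u

namespace Run7.h258

open Submodule Cardinal

variable {R : Type u} [Ring R]

/-- Every cyclic submodule of the injective hull embeds in `R ^ m` for some finite `m ≤ n`. -/
def TightN (R : Type u) [Ring R] (n : ℕ∞) : Prop :=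
  ∀ (E : Type u) [AddCommGroup E] [Module Rᵐᵒᵖ E], Module.Injective Rᵐᵒᵖ E →
    ∀ ι : R →ₗ[Rᵐᵒᵖ] E, Function.Injective ι →
    (∀ N : Submodule Rᵐᵒᵖ E, N ≠ ⊥ → N ⊓ LinearMap.range ι ≠ ⊥) →
    ∀ x : E, ∃ (m : ℕ), (m : ℕ∞) ≤ n ∧
      ∃ f : ↥(Submodule.span Rᵐᵒᵖ {x}) →ₗ[Rᵐᵒᵖ] (Fin m → R), Function.Injective f

theorem TightN.tight {n : ℕ∞} (h : TightN R n) : Tight R := by
  intro E _ _ hE ι hι hess x
  obtain ⟨m, -, f, hf⟩ := h E hE ι hι hess x
  let e : (ULift.{u} (Fin m) →₀ R) ≃ₗ[Rᵐᵒᵖ] (ULift.{u} (Fin m) → R) :=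
    Finsupp.linearEquivFunOnFinite Rᵐᵒᵖ R (ULift.{u} (Fin m))
  let g : (Fin m → R) →ₗ[Rᵐᵒᵖ] (ULift.{u} (Fin m) → R) :=
    { toFun := fun v i => v i.down
      map_add' := fun v w => rfl
      map_smul' := fun c v => rfl }
  have hg : Function.Injective g := by
    intro v w hvw
    funext i
    exact congrFun hvw ⟨i⟩
  exact ⟨ULift.{u} (Fin m), (e.symm.toLinearMap.comp g).comp f,
    (e.symm.injective.comp hg).comp hf⟩

/-- The version of `exists_E` that keeps track of the number of elements. -/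
theorem exists_EN {n : ℕ∞} (hT : TightN R n) :
    ∃ (E : Type u) (_ : AddCommGroup E) (_ : Module Rᵐᵒᵖ E) (ι : R →ₗ[Rᵐᵒᵖ] E),
      Module.Injective Rᵐᵒᵖ E ∧ Function.Injective ι ∧
      ∀ h : R →ₗ[Rᵐᵒᵖ] E, ∃ F : Finset R, (F.card : ℕ∞) ≤ n ∧
        ∀ x, h x = 0 ↔ ∀ f ∈ F, f * x = 0 := by
  classical
  obtain ⟨E, _, _, ι, hE, hι, hess⟩ := exists_hull (A := Rᵐᵒᵖ) R
  refine ⟨E, inferInstance, inferInstance, ι, hE, hι, fun h => ?_⟩
  obtain ⟨m, hmn, φ, hφ⟩ := hT E hE ι hι hess (h 1)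
  let y : ↥(span Rᵐᵒᵖ {h 1}) := ⟨h 1, Submodule.mem_span_singleton_self _⟩
  refine ⟨Finset.univ.image (φ y), ?_, fun x => ?_⟩
  · refine le_trans ?_ hmn
    have := (Finset.card_image_le : (Finset.univ.image (φ y)).card ≤ Finset.univ.card)
    rw [Finset.card_univ, Fintype.card_fin] at this
    exact_mod_cast this
  have h1 : h x = MulOpposite.op x • h 1 := by
    have := map_mul h 1 x
    rwa [one_mul] at this
  have h2 : h x = 0 ↔ MulOpposite.op x • y = 0 := by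
    rw [h1]
    constructor
    · intro h3
      exact Subtype.ext h3
    · intro h3
      exact congrArg Subtype.val h3
  rw [h2]
  have h3 : MulOpposite.op x • y = 0 ↔ MulOpposite.op x • φ y = 0 := by
    rw [← map_smul]
    constructor
    · intro h3
      rw [h3, map_zero]
    · intro h3
      exact hφ (by rw [h3, map_zero])
  rw [h3]
  constructor
  · intro h4 f hf
    obtain ⟨i, -, rfl⟩ := Finset.mem_image.1 hf
    have := congrFun h4 i
    simpa using this
  · intro h4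
    funext i
    have := h4 (φ y i) (Finset.mem_image.2 ⟨i, Finset.mem_univ i, rfl⟩)
    simpa using this

theorem P1N {n : ℕ∞} (hT : TightN R n) {X K : Submodule Rᵐᵒᵖ R} (hKX : K ⊓ X = ⊥)
    (hmax : ∀ L, K < L → L ⊓ X ≠ ⊥) :
    ∃ F : Finset R, (F.card : ℕ∞) ≤ n ∧ ∀ x, x ∈ K ↔ ∀ f ∈ F, f * x = 0 := by
  obtain ⟨E, _, _, ι, hE, hι, hEF⟩ := exists_EN hT
  let j : X →ₗ[Rᵐᵒᵖ] (R ⧸ K) := K.mkQ.comp X.subtype
  have hj : Function.Injective j := by
    rw [← LinearMap.ker_eq_bot, eq_bot_iff]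
    intro x hx
    have h1 : (x : R) ∈ K := by
      have : K.mkQ (x : R) = 0 := hx
      simpa using this
    exact (Submodule.mem_bot _).2 (Subtype.ext (eq_zero_of_disj hKX h1 x.2))
  obtain ⟨h, hh⟩ := hE.out j hj (ι.comp X.subtype)
  have hker : LinearMap.ker (h.comp K.mkQ) = K := by
    by_contra hne
    have hle : K ≤ LinearMap.ker (h.comp K.mkQ) := by
      intro x hx
      rw [LinearMap.mem_ker, LinearMap.comp_apply]
      have : K.mkQ x = 0 := by simpa using hx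
      rw [this, map_zero]
    refine hmax _ (lt_of_le_of_ne hle (Ne.symm hne)) ?_
    rw [eq_bot_iff]
    intro x hx
    obtain ⟨h1, h2⟩ := Submodule.mem_inf.1 hx
    have h3 : h (j ⟨x, h2⟩) = ι x := hh ⟨x, h2⟩
    have h4 : h (j ⟨x, h2⟩) = 0 := h1
    rw [h4] at h3
    have h5 : x = 0 := hι (by rw [← h3, map_zero])
    rw [h5]
    exact Submodule.zero_mem _
  obtain ⟨F, hFn, hF⟩ := hEF (h.comp K.mkQ)
  refine ⟨F, hFn, fun x => ?_⟩
  rw [← hF x, ← LinearMap.mem_ker, hker]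

/-- The set of classes on which `r` does not act as zero. -/
def supp (r : R) : Set (Cls R) := {i | ∃ s ∈ SA {i}, r * s ≠ 0}

theorem supp_add (r r' : R) : supp (r + r') ⊆ supp r ∪ supp r' := by
  rintro i ⟨s, hs, h⟩
  by_contra hcon
  rw [Set.mem_union, not_or] at hcon
  obtain ⟨h1, h2⟩ := hcon
  apply h
  have h3 : r * s = 0 := by
    by_contra h4
    exact h1 ⟨s, hs, h4⟩
  have h5 : r' * s = 0 := by
    by_contra h4
    exact h2 ⟨s, hs, h4⟩
  rw [add_mul, h3, h5, add_zero]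

theorem supp_mul_left (a r : R) : supp (a * r) ⊆ supp r := by
  rintro i ⟨s, hs, h⟩
  refine ⟨s, hs, fun h0 => h ?_⟩
  rw [mul_assoc, h0, mul_zero]

theorem supp_mul_right (r a : R) : supp (r * a) ⊆ supp r := by
  rintro i ⟨s, hs, h⟩
  refine ⟨a * s, lmul_SA _ _ hs, fun h0 => h ?_⟩
  rw [mul_assoc, h0]

theorem supp_neg (r : R) : supp (-r) ⊆ supp r := by
  have := supp_mul_left (-1) r
  rwa [neg_one_mul] at this

theorem supp_zero : supp (0 : R) = ∅ := by
  ext i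
  simp [supp]

/-- The ideal of the elements with small support. -/
def Small (R : Type u) [Ring R] [Infinite (Cls R)] : TwoSidedIdeal R :=
  TwoSidedIdeal.mk' {r | #(supp r) < #(Cls R)}
    (by
      show #(supp (0 : R)) < #(Cls R)
      rw [supp_zero, mk_eq_zero]
      exact aleph0_pos.trans_le (aleph0_le_mk _))
    (by
      intro x y hx hy
      exact (mk_le_mk_of_subset (supp_add x y)).trans_lt
        ((mk_union_le _ _).trans_lt (add_lt_of_lt (aleph0_le_mk _) hx hy)))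
    (by
      intro x hx
      exact (mk_le_mk_of_subset (supp_neg x)).trans_lt hx)
    (by
      intro x y hy
      exact (mk_le_mk_of_subset (supp_mul_left x y)).trans_lt hy)
    (by
      intro x y hx
      exact (mk_le_mk_of_subset (supp_mul_right x y)).trans_lt hx)

theorem mem_Small [Infinite (Cls R)] {r : R} : r ∈ Small R ↔ #(supp r) < #(Cls R) :=
  TwoSidedIdeal.mem_mk' _ _ _ _ _ _ _

/-- Detecting simple modules are pairwise non-isomorphic, general version. -/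
theorem injective_t' {κ : Type u} {I : TwoSidedIdeal R} {a t : κ → R}
    (hat : ∀ c, IsAtom (span Rᵐᵒᵖ {t c})) (hz : ∀ c, ∀ z ∈ I, t c * z = 0)
    (hta : ∀ c, t c * a c ≠ 0) (horth : ∀ c d, c ≠ d → ∀ p, a c * p * a d ∈ I) :
    Function.Injective (fun c => cls _ (hat c)) := by
  intro c d hcd
  by_contra hne
  obtain ⟨e⟩ := (cls_eq_iff (hat c) (hat d)).1 hcd
  let s := e.symm ⟨t d, Submodule.mem_span_singleton_self _⟩
  have h1 : (s : R) * a d ≠ 0 := by
    intro h0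
    have h2 : MulOpposite.op (a d) • s = 0 := Subtype.ext (by simpa using h0)
    have h3 : MulOpposite.op (a d) • e s = 0 := by rw [← map_smul, h2, map_zero]
    have h4 : e s = ⟨t d, Submodule.mem_span_singleton_self _⟩ := e.apply_symm_apply _
    rw [h4] at h3
    exact hta d (by simpa using congrArg Subtype.val h3)
  obtain ⟨q, hq⟩ := mem_span_r.1 s.2
  obtain ⟨p, hp⟩ := atom_mul (hat c) (mul_mem_r _ s.2 (a d)) h1
    (Submodule.mem_span_singleton_self (t c))
  have h5 := horth d c (Ne.symm hne) p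
  have h6 := hz c _ (I.mul_mem_left q _ h5)
  refine hta c ?_
  rw [hp, hq]
  calc t c * q * a d * p * a c = t c * (q * (a d * p * a c)) := by
        simp only [mul_assoc]
    _ = 0 := h6

/-- Every set of at most `n` elements of the radical modulo `I` has a right annihilator modulo
`I` outside `I`. -/
def AnnN (n : ℕ∞) (I : TwoSidedIdeal R) : Prop :=
  ∀ F : Finset R, (F.card : ℕ∞) ≤ n →
    (∀ a ∈ F, ∀ m : Submodule Rᵐᵒᵖ R, IsCoatom m → (∀ x ∈ I, x ∈ m) → a ∈ m) →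
    ∃ t : R, t ∉ I ∧ ∀ a ∈ F, a * t ∈ I

theorem small_biUnion {κ : Type u} [Infinite κ] {α : Type*} (s : Finset α) (f : α → Set κ)
    (h : ∀ i ∈ s, #(f i) < #κ) : #(⋃ i ∈ s, f i : Set κ) < #κ := by
  classical
  induction s using Finset.induction with
  | empty =>
    simp only [Finset.notMem_empty, Set.iUnion_of_empty, Set.iUnion_empty, mk_eq_zero]
    exact aleph0_pos.trans_le (aleph0_le_mk _)
  | insert a s ha ih =>
    rw [Finset.set_biUnion_insert]
    exact (mk_union_le _ _).trans_lt (add_lt_of_lt (aleph0_le_mk _)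
      (h a (Finset.mem_insert_self a s)) (ih fun i hi => h i (Finset.mem_insert_of_mem hi)))

/-- The ideal of the elements whose support has a small intersection with `𝒜`. -/
def SmallOn [Infinite (Cls R)] (𝒜 : Set (Cls R)) : TwoSidedIdeal R :=
  TwoSidedIdeal.mk' {r | #(supp r ∩ 𝒜 : Set (Cls R)) < #(Cls R)}
    (by
      show #(supp (0 : R) ∩ 𝒜 : Set (Cls R)) < #(Cls R)
      rw [supp_zero, Set.empty_inter, mk_eq_zero]
      exact aleph0_pos.trans_le (aleph0_le_mk _))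
    (by
      intro x y hx hy
      refine (mk_le_mk_of_subset (t := (supp x ∩ 𝒜) ∪ (supp y ∩ 𝒜)) ?_).trans_lt
        ((mk_union_le _ _).trans_lt (add_lt_of_lt (aleph0_le_mk _) hx hy))
      rintro i ⟨h1, h2⟩
      rcases supp_add x y h1 with h | h
      · exact Or.inl ⟨h, h2⟩
      · exact Or.inr ⟨h, h2⟩)
    (by
      intro x hx
      exact (mk_le_mk_of_subset (Set.inter_subset_inter_left _ (supp_neg x))).trans_lt hx)
    (by
      intro x y hy
      exact (mk_le_mk_of_subset (Set.inter_subset_inter_left _ (supp_mul_left x y))).trans_lt hy)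
    (by
      intro x y hx
      exact (mk_le_mk_of_subset (Set.inter_subset_inter_left _ (supp_mul_right x y))).trans_lt hx)

theorem mem_SmallOn [Infinite (Cls R)] {𝒜 : Set (Cls R)} {r : R} :
    r ∈ SmallOn 𝒜 ↔ #(supp r ∩ 𝒜 : Set (Cls R)) < #(Cls R) :=
  TwoSidedIdeal.mem_mk' _ _ _ _ _ _ _

theorem supp_one : supp (1 : R) = Set.univ := by
  rw [Set.eq_univ_iff_forall]
  intro i
  obtain ⟨t, ht, hct⟩ := exists_cls' i
  have htS : t ∈ SA {i} := le_SA ht (by rw [hct]; rfl) (Submodule.mem_span_singleton_self _)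
  exact ⟨t, htS, by rw [one_mul]; exact gen_ne_zero ht⟩

/-- Under the annihilator condition every subset of full size supports an element outside the
radical modulo the ideal of elements of small support. -/
theorem exists_not_rad_of_full {n : ℕ∞} (hT : TightN R n) [Infinite (Cls R)]
    (𝒜 : Set (Cls R)) (hann : AnnN n (SmallOn 𝒜)) :
    ∃ a : R, supp a ⊆ 𝒜 ∧ ¬ Rad {x : R | x ∈ Small R} a := by
  classical
  by_contra hcon
  push Not at hcon
  obtain ⟨K, hK0, hKX, hKmax⟩ := exists_max_disjoint (SA 𝒜) (SA 𝒜ᶜ)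
    (SA_disjoint disjoint_compl_left)
  obtain ⟨F, hFn, hF⟩ := P1N hT hKX hKmax
  have hsuppF : ∀ f ∈ F, supp f ⊆ 𝒜 := by
    rintro f hf i ⟨s, hs, hne⟩
    by_contra hi
    exact hne ((hF s).1 (hK0 (SA_mono (Set.singleton_subset_iff.2 hi) hs)) f hf)
  have hSS : ∀ x : R, x ∈ Small R → x ∈ SmallOn 𝒜 := by
    intro x hx
    rw [mem_SmallOn]
    exact (mk_le_mk_of_subset Set.inter_subset_left).trans_lt (mem_Small.1 hx)
  obtain ⟨t, ht, htF⟩ := hann F hFn (fun a ha m hm hI =>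
    hcon a (hsuppF a ha) m hm fun x hx => hI x (hSS x hx))
  let W : Set (Cls R) := ⋃ f ∈ F, (supp (f * t) ∩ 𝒜)
  have hW : #W < #(Cls R) := small_biUnion _ _ fun f hf => mem_SmallOn.1 (htF f hf)
  have hsub : supp t ∩ 𝒜 ⊆ W := by
    rintro i ⟨⟨s, hs, hne⟩, hi⟩
    have h1 : t * s ∈ SA 𝒜 := SA_mono (Set.singleton_subset_iff.2 hi) (lmul_SA _ _ hs)
    have h2 : t * s ∉ K := fun h => hne (eq_zero_of_disj hKX h h1)
    have h3 : ¬ ∀ f ∈ F, f * (t * s) = 0 := fun h => h2 ((hF _).2 h)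
    push Not at h3
    obtain ⟨f, hf, hfne⟩ := h3
    exact Set.mem_biUnion (Finset.mem_coe.2 hf) ⟨⟨s, hs, by rwa [mul_assoc]⟩, hi⟩
  exact ht (mem_SmallOn.2 ((mk_le_mk_of_subset hsub).trans_lt hW))

theorem finite_cls_of_ann (hK : Kasch R) {n : ℕ∞} (hT : TightN R n)
    (hann : ∀ I : TwoSidedIdeal R, (∀ z, (∀ s ∈ Soc R, z * s = 0) → z ∈ I) → (1 : R) ∉ I →
      AnnN n I) : Finite (Cls R) := by
  classical
  by_contra hinf
  rw [not_finite_iff_infinite] at hinf
  obtain ⟨𝓜, hcard, hM⟩ := exists_eventually_different (Cls R)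
  obtain ⟨e⟩ : Nonempty (Cls R × Cls R ≃ Cls R) := by
    refine Cardinal.eq.1 ?_
    rw [mk_prod, lift_id, mul_eq_self (aleph0_le_mk _)]
  let 𝒜 : (Cls R → Cls R) → Set (Cls R) := fun f => Set.range fun x => e (x, f x)
  have h𝒜 : ∀ f, #(𝒜 f) = #(Cls R) := by
    intro f
    refine mk_range_eq _ ?_
    intro x y hxy
    exact (Prod.ext_iff.1 (e.injective hxy)).1
  have h𝒜d : ∀ f ∈ 𝓜, ∀ g ∈ 𝓜, f ≠ g → #(𝒜 f ∩ 𝒜 g : Set (Cls R)) < #(Cls R) := by
    intro f hf g hg hfg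
    have hsub : 𝒜 f ∩ 𝒜 g ⊆ (fun x => e (x, f x)) '' {x | f x = g x} := by
      rintro i ⟨⟨x, hx⟩, ⟨y, hy⟩⟩
      have h1 : (x, f x) = (y, g y) := e.injective (hx.trans hy.symm)
      obtain ⟨h2, h3⟩ := Prod.ext_iff.1 h1
      simp only at h2 h3
      subst h2
      exact ⟨x, h3, hx⟩
    exact (mk_le_mk_of_subset hsub).trans_lt (mk_image_le.trans_lt (hM f hf g hg hfg))
  have hsuppz : ∀ z : R, (∀ s ∈ Soc R, z * s = 0) → supp z = ∅ := by
    intro z hz
    rw [Set.eq_empty_iff_forall_notMem]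
    rintro i ⟨s, hs, hne⟩
    exact hne (hz s (SA_le_Soc _ hs))
  have hSmallOn : ∀ ℬ : Set (Cls R), ∀ z : R, (∀ s ∈ Soc R, z * s = 0) → z ∈ SmallOn ℬ := by
    intro ℬ z hz
    rw [mem_SmallOn, hsuppz z hz, Set.empty_inter, mk_eq_zero]
    exact aleph0_pos.trans_le (aleph0_le_mk _)
  have h1 : ∀ f, (1 : R) ∉ SmallOn (𝒜 f) := by
    intro f h
    rw [mem_SmallOn, supp_one, Set.univ_inter, h𝒜] at h
    exact lt_irrefl _ h
  have hex : ∀ f : 𝓜, ∃ a t : R, supp a ⊆ 𝒜 f.1 ∧ IsAtom (span Rᵐᵒᵖ {t}) ∧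
      (∀ x ∈ Small R, t * x = 0) ∧ t * a ≠ 0 := by
    intro f
    obtain ⟨a, ha, hrad⟩ := exists_not_rad_of_full hT (𝒜 f.1)
      (hann _ (hSmallOn _) (h1 f.1))
    obtain ⟨t, ht, hz, hta⟩ := exists_t_of_not_rad hK hrad
    exact ⟨a, t, ha, ht, hz, hta⟩
  choose a t hsa hat hz hta using hex
  have hinj := injective_t' (I := Small R) (a := a) (t := t) hat hz hta (by
    intro f g hfg p
    rw [mem_Small]
    have hsub : supp (a f * p * a g) ⊆ 𝒜 f.1 ∩ 𝒜 g.1 := by
      intro i hi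
      refine ⟨hsa f ?_, hsa g (supp_mul_left _ _ hi)⟩
      exact supp_mul_right _ _ (supp_mul_right _ _ hi)
    exact (mk_le_mk_of_subset hsub).trans_lt
      (h𝒜d f.1 f.2 g.1 g.2 (fun h => hfg (Subtype.ext h))))
  exact (mk_le_of_injective hinj).not_gt hcard

theorem main_T3b (hK : Kasch R) {n : ℕ∞} (hT : TightN R n)
    (hann : ∀ I : TwoSidedIdeal R, (∀ z, (∀ s ∈ Soc R, z * s = 0) → z ∈ I) → (1 : R) ∉ I →
      AnnN n I)
    (W : TwoSidedIdeal R) (hZ : ∀ z, Sing z → z ∈ W)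
    (hnil : ∀ a, (∀ m : Submodule Rᵐᵒᵖ R, IsCoatom m → (∀ x ∈ W, x ∈ m) → a ∈ m) →
      ∀ s ∈ Soc R, ∃ n : ℕ, a ^ n * s = 0) :
    (Soc R).FG ∧ ∀ I : Submodule Rᵐᵒᵖ R, I ≠ ⊥ → I ⊓ Soc R ≠ ⊥ :=
  main_of_finite hK hT.tight (finite_cls_of_ann hK hT hann) (W := {x : R | x ∈ W}) hZ hnil

end Run7.h258
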